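import Pool.Agent.H71SC.Expl2
import Pool.Agent.Results.MP_c385f6_ag.EtaleCoverings

/-!
# Sections of fundamental groups of coverings of the line with monodromy of `ℓ`-power order

Let `k` be a finite extension of `ℚ_p`, or any complete discretely valued field of characteristic
zero with finite residue field, let `A` be its valuation ring, let `ℓ` be a prime number which is
invertible in `A`, and let `f ∈ A[x]` be a polynomial with invertible leading coefficient and
separable reduction, whose degree is at least 3 and divisible by `ℓ`.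

We consider all curves `C` over `k` with a branched covering `x : C → ℙ¹`, not necessarily Galois,
such that the Galois closure of `C → ℙ¹` over `k̄` has a Galois group of `ℓ`-power order, all
ramification indices above the roots of `f` are equal to `ℓ`, and there is no other ramification
(`EllCovering`).  Let `F ⊇ k(x)` be the function field of `C`, and let `M` be the maximal pro-`ℓ`
extension of `k̄ F` that is unramified over `C`, so that `Gal(M/F)` is the geometrically pro-`ℓ`
fundamental group of `C`.  The curve `C` has good reduction over a finite extension of `k`: the Gauss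
valuation of `k̄(x)` has exactly one extension `O` to `M`, and the residue field of `O ∩ k̄ F` is the
function field of the reduction.  The curve has bad reduction over `k` if the inertia group of `k`
acts non-trivially on this residue field (`BadReduction`).

**Theorem.**
* `M` depends only on `ℓ` and `f`: it is the maximal pro-`ℓ` extension of `k̄(x)` whose ramification
  indices above the roots of `f` divide `ℓ` and which has no other ramification.
* Every section `s` of `Gal(M/F) → G_k` is unramified, that is, for all `σ` in the inertia group of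
  `k` the automorphism `s(σ)` acts trivially on the residue field of `O`, or it is the section of
  exactly one point of `C` above a root of `f`, and this point is a `k`-rational point of `C` above a
  rational root of `f`.
* If `C` has bad reduction, then every section is of the second kind.
* If `s` fixes some `y ∈ M` with `d y^ℓ = g(x)`, where the leading coefficient of `g ∈ A[x]` is
  invertible and `d ∈ k` has a valuation not divisible by `ℓ`, then `s` is of the second kind.
* This applies to all fields `F = k(x, y_i, i ∈ I)` with `d_i y_i^ℓ = g_i(x)`, where `d_i ∈ k` is not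
  zero, `g_i ∈ A[x]` divides a power of `f`, the degree of `g_i` is divisible by `ℓ`, and every root of
  `f` is a root of some `g_i` with a multiplicity not divisible by `ℓ`; if the valuation of one of the
  `d_i` is not divisible by `ℓ`, all sections are of the second kind.

So the sections of the geometrically pro-`ℓ` fundamental group of a curve of this kind which has bad
reduction over `k` come from rational points; the second case in the theorem is proved also for the
sections of `π₁(C)`, of `π₁(U)` for the open subcurves `U` of `C`, and for all étale coverings of `C`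
with function field contained in `M`: the theorem is stated for arbitrary `F ⊆ L ⊆ M ⊆ N ⊆ Ω` and
`Gal(N/L)`.  (If `C` has good reduction, then there are usually many unramified sections which do not
come from rational points: for these one has to take into account the `p`-part of the fundamental
group.)

Examples.  (1) All cyclic coverings of degree `ℓ` of the line with good branch locus,
`d y^ℓ = ∏_j f_j(x)^(a_j)`, where `∏_j f_j = f`, the `a_j` are not divisible by `ℓ`, `∑_j a_j deg f_j` is
divisible by `ℓ`, and the valuation of `d` is not divisible by `ℓ`.  The starting hand-ins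
`MP_c385f6_ag.ProEllSections` and `MP_c385f6_ag.EtaleCoverings` are on the case that all `a_j` are 1, and
on the étale coverings of these curves.  (2) Coverings given by several equations, for instance, for
`ℓ = 2` and `f = f_1 f_2 f_3` with `f_j` of even degree, the curves `d_1 y_1² = f_1(x) f_2(x)`,
`d_2 y_2² = f_2(x) f_3(x)` with `d_1` or `d_2` of odd valuation; they are not étale coverings of a curve
`d y² = f(x)`.  (3) Coverings with nonabelian monodromy group: every subfield of the universal field
`M` with ramification indices `ℓ`, and every twist of it, is allowed.  In all cases the coordinate `x`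
is fixed by the inertia group of `k`, in contrast to the twists in the starting hand-in
`MP_c385f6_ag.CoveringsOfTwistsByRotations`.

Proof.  Let `κ = k̄`, let `B` be the set of the roots of `f` and let `Y ∈ Ω` with
`Y^ℓ = ∏_{e ∈ B} (x - e)`.  By `Pool.Agent.Y157.PS` the maximal unramified pro-`ℓ` extension `M₂` of
`κ(x, Y)` is a pro-`ℓ` Galois extension of `κ(x)` with ramification indices `ℓ` above `B`, and every
function of `M₂` whose divisor is divisible by `ℓ` is an `ℓ`-th power.
(1) A Galois extension `L` of `ℓ`-power degree of a subfield `K` of `M₂` is contained in `M₂` if all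
`h ∈ L` with `h^ℓ ∈ M₂` have a divisor such that the one of `h^ℓ` on `M₂` is divisible by `ℓ`: otherwise
there would be `h ∈ L ∖ M₂` with `h^ℓ ∈ M₂`.  This shows that `M₂` is the universal field, and that it is
the maximal unramified pro-`ℓ` extension of `κ F` for all `F` as above.
(2) A section `s` acts on `Y` by `s(σ) Y = c(σ) Y`, `c(σ)^ℓ = 1`, as `B` is stable under `G_k`.  By
Hilbert's Theorem 90 there is `δ ∈ κ` with `c(σ) = σ(δ)/δ`, and `δ^ℓ ∈ k`.  Let `ρ^ℓ = ϖ` be a uniformiser of
`A`.  An element `σ` of the inertia group with `σ(ρ) = ρ` fixes `δ`: if `m` is the valuation of `δ^ℓ`,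
then `δ/ρ^m` is an `ℓ`-th root of a unit of `A`.
(3) Such `s(σ)` act trivially on the residue field of `O`.  This is the weight argument of
`Pool.Agent.Y748.PS`, which needs a tower of levels that contain `Y`, and (2).
(4) Let `τ` be an element of the inertia group which generates it modulo the elements which fix `ρ`,
and let `γ ∈ Gal(M/κ(x))` have the same action on the residue field of `O` as `s(τ)`.  Then `γ^ℓ = 1`.
If `γ = 1`, then `s` is unramified.  Otherwise `γ` fixes exactly one place `W` of `M`, this is above a
root of `f`, and `γ` moves `Y`.  By (3) `s(σ)` normalises the group generated by `γ`, so it fixes `W`.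
(5) If `s(G_k)` fixes another place `W'` above a root of `f`, let `c` be the element of order `ℓ` of
`Gal(M/κ(x))` which fixes `W'` with `c(Y)/Y = γ(Y)/Y`.  It commutes with `s(τ)` and so with `γ`, and
`γ c⁻¹` is of finite order and fixes `Y`, hence trivial.  So `γ = c` fixes `W'`, and `W' = W`.
(6) If `C` has bad reduction, or if `s` fixes `y` as above, some `s(σ)` with `σ` in the inertia group
acts non-trivially on the residue field of `O`, for instance on `δ₁ y`, where `δ₁^ℓ = d`.
(7) Rationality and uniqueness of the section for given `W`: `MP_c385f6_ag.EtaleCoverings`.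
-/

set_option autoImplicit false

open Polynomial

namespace Pool.Agent.Results.MP_c385f6_ag.EllMonodromyCovers

open EtaleCoverings

section definitions

/-- The nonzero elements `a` and `b` of `Ω` have the same value with respect to `W`. -/
def SameValue {Ω : Type} [Field Ω] (W : ValuationSubring Ω) (a b : Ω) : Prop :=
  a / b ∈ W ∧ (a / b)⁻¹ ∈ W

/-- Let `W` be a valuation ring of `Ω` which contains `k`.  If `u` is in the maximal ideal of `W`, the
`ℓ`-th power of every nonzero element of `L` has the same value as an element of `K`; otherwise every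
nonzero element of `L` has the same value as an element of `K`.  If `K` is a function field of one
variable over the algebraic closure of `k` and `L/K` is finite, this says that the ramification indices
of `L/K` divide `ℓ` at the zeros of `u`, and that there is no other ramification. -/
def RamifiedOver (ℓ : ℕ) (k : Type) {K Ω : Type} [Field k] [Field K] [Field Ω] [Algebra k Ω]
    [Algebra K Ω] (u : Ω) (L : IntermediateField K Ω) : Prop :=
  ∀ W : ValuationSubring Ω, (∀ c : k, algebraMap k Ω c ∈ W) → ∀ z ∈ L, z ≠ 0 →
    (u ∈ W.nonunits → ∃ t : K, t ≠ 0 ∧ SameValue W (z ^ ℓ) (algebraMap K Ω t)) ∧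
    (u ∉ W.nonunits → ∃ t : K, t ≠ 0 ∧ SameValue W z (algebraMap K Ω t))

/-- The compositum of all finite Galois extensions of `K` in `Ω` whose degree is a power of `ℓ`, whose
ramification indices divide `ℓ` at the zeros of `u`, and which have no other ramification. -/
noncomputable def universalField (ℓ : ℕ) (k : Type) {K Ω : Type} [Field k] [Field K] [Field Ω]
    [Algebra k Ω] [Algebra K Ω] (u : Ω) : IntermediateField K Ω :=
  ⨆ L : {L : IntermediateField K Ω // FiniteProEll ℓ L ∧ RamifiedOver ℓ k u L}, L.1

/-- `k̄(x)`, where `k̄` is the algebraic closure of `k` in `Ω`. -/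
noncomputable abbrev lineField (k : Type) {Ω : Type} [Field k] [Field Ω] [Algebra k Ω] (x : Ω) :
    IntermediateField (algebraicClosure k Ω) Ω :=
  IntermediateField.adjoin (algebraicClosure k Ω) {x}

/-- The set of elements of `universalField`. -/
def universalSet (ℓ : ℕ) (k K : Type) {Ω : Type} [Field k] [Field K] [Field Ω] [Algebra k Ω]
    [Algebra K Ω] (u : Ω) : Set Ω :=
  {z | z ∈ universalField (K := K) ℓ k u}

/-- The set of elements of the universal field of `k̄(x)`. -/
def universalOfLine (ℓ : ℕ) (k : Type) {Ω : Type} [Field k] [Field Ω] [Algebra k Ω] (x u : Ω) :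
    Set Ω :=
  universalSet ℓ k (lineField k x) u

/-- `k(x) ⊆ F ⊆ Ω`, where `x` is transcendental over `k` and `F/k(x)` is algebraic; `F` is contained in
the maximal pro-`ℓ` extension of `k̄(x)` whose ramification indices divide `ℓ` above the roots of `f` and
which has no other ramification, and all ramification indices of `k̄ F/k̄(x)` above the roots of `f` are
equal to `ℓ`: there is an element `t` of `k̄ F` such that `t^ℓ` has the same value as `f(x)`. -/
structure EllCovering (ℓ : ℕ) {k F : Type} (Ω : Type) [Field k] [Field F] [Field Ω] [Algebra k F]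
    [Algebra F Ω] [Algebra k Ω] (f : k[X]) (x : F) : Prop where
  transcendental : Transcendental k x
  algebraic : Algebra.IsAlgebraic (IntermediateField.adjoin k {x}) F
  mem : ∀ z : F, algebraMap F Ω z ∈
    universalOfLine ℓ k (algebraMap F Ω x) (algebraMap F Ω (aeval x f))
  ram : ∀ W : ValuationSubring Ω, (∀ c : k, algebraMap k Ω c ∈ W) →
    algebraMap F Ω (aeval x f) ∈ W.nonunits →
    ∃ t ∈ geomField k F Ω, t ≠ 0 ∧ SameValue W (t ^ ℓ) (algebraMap F Ω (aeval x f))

/-- The valuation ring `O` of `Ω` induces the Gauss valuation on `K(x)`: it dominates `A`, contains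
`x`, and no polynomial in `x` with coefficients in `O ∩ K`, not all in the maximal ideal, is in its
maximal ideal. -/
def IsGauss (A k K : Type) {Ω : Type} [CommRing A] [IsLocalRing A] [Field k] [Field K] [Field Ω]
    [Algebra A k] [Algebra k Ω] [Algebra K Ω] (x : Ω) (O : ValuationSubring Ω) : Prop :=
  (∀ a : A, algebraMap k Ω (algebraMap A k a) ∈ O) ∧
  (∀ a ∈ IsLocalRing.maximalIdeal A, algebraMap k Ω (algebraMap A k a) ∈ O.nonunits) ∧
  x ∈ O ∧
  ∀ p : K[X], (∀ n, algebraMap K Ω (p.coeff n) ∈ O) →
    (∃ n, algebraMap K Ω (p.coeff n) ∉ O.nonunits) → aeval x p ∉ O.nonunits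

/-- The Gauss valuation of `K(x)` has an extension to `Ω`, and all extensions agree on `M`. -/
def GaussUnique (A k K : Type) {Ω : Type} [CommRing A] [IsLocalRing A] [Field k] [Field K] [Field Ω]
    [Algebra A k] [Algebra k Ω] [Algebra K Ω] (x : Ω) (M : Set Ω) : Prop :=
  (∃ O : ValuationSubring Ω, IsGauss A k K x O) ∧
  ∀ O O' : ValuationSubring Ω, IsGauss A k K x O → IsGauss A k K x O' → ∀ z ∈ M, z ∈ O ↔ z ∈ O'

/-- The map `τ : E → E` acts trivially on the residue field of `O ∩ M`, where `M ⊆ E ⊆ Ω`. -/
def ActsTrivially {E Ω : Type} [Field E] [Field Ω] [Algebra E Ω] (O : ValuationSubring Ω)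
    (M : Set Ω) (τ : E → E) : Prop :=
  ∀ z : E, algebraMap E Ω z ∈ M → algebraMap E Ω z ∈ O → algebraMap E Ω (τ z - z) ∈ O.nonunits

/-- The curve with function field `L` has bad reduction: if `O` induces the Gauss valuation, then some
automorphism of `Ω` over `L` that acts trivially on the residue field of `O ∩ k̄` acts non-trivially on
the residue field of `O ∩ k̄ L`. -/
def BadReduction (A k : Type) {F Ω : Type} [CommRing A] [IsLocalRing A] [Field k] [Field F]
    [Field Ω] [Algebra A k] [Algebra F Ω] [Algebra k Ω] (x : F) (L : IntermediateField F Ω) :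
    Prop :=
  ∃ O : ValuationSubring Ω, IsGauss A k (algebraicClosure k Ω) (algebraMap F Ω x) O ∧
    ∃ τ : Ω ≃ₐ[F] Ω, (∀ z ∈ L, τ z = z) ∧ ActsTrivially O (algebraicClosure k Ω : Set Ω) τ ∧
    ¬ ActsTrivially O
      (IntermediateField.adjoin F ((algebraicClosure k Ω : Set Ω) ∪ (L : Set Ω)) : Set Ω) τ

variable {k F Ω K N : Type} [Field k] [Field F] [Field Ω] [Field K] [Field N] [Algebra k F]
  [Algebra k K] [Algebra F N] [Algebra F Ω] [Algebra K Ω] [Algebra N Ω] [Algebra k Ω]

/-- The section `s`, restricted to `M`, is unramified: if `O` induces the Gauss valuation, then for all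
`σ ∈ Gal(K/k)` in the inertia group, that is, which act trivially on the residue field of `O ∩ K`, the
automorphism `s(σ)` acts trivially on the residue field of `O ∩ M`. -/
def IsUnramified (A : Type) [CommRing A] [IsLocalRing A] [Algebra A k] (x : F)
    (M : IntermediateField F Ω) (s : Splitting k F Ω K N) : Prop :=
  ∀ O : ValuationSubring Ω, IsGauss A k K (algebraMap F Ω x) O →
    ∀ σ : K ≃ₐ[k] K, ActsTrivially O Set.univ σ → ActsTrivially O (M : Set Ω) (s.toHom σ)

/-- `s` fixes an element `y` of `M` with `d y^ℓ = g(x)`, where the leading coefficient of `g ∈ A[x]` is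
invertible and the valuation of `d ∈ k` is not divisible by `ℓ`. -/
def FixesTwist (A : Type) [CommRing A] [Algebra A k] (ℓ : ℕ) (x : F) (M : IntermediateField F Ω)
    (s : Splitting k F Ω K N) : Prop :=
  ∃ (g : A[X]) (d : k) (y : N), IsUnit g.leadingCoeff ∧ ValuationPrimeTo A ℓ d ∧
    algebraMap N Ω y ∈ M ∧ (∀ σ, s.toHom σ y = y) ∧
    algebraMap k Ω d * (algebraMap N Ω y) ^ ℓ = algebraMap F Ω (aeval x (g.map (algebraMap A k)))

/-- The section `s` is unramified on `M`, or it induces on `M` the section of exactly one point above a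
root of `f`, and this is a `k`-rational point of the curve with function field `L`.  The second case
holds if `L` has bad reduction, or if `s` fixes some `y` as in `FixesTwist`. -/
def UnramifiedOrFromPoint (A : Type) [CommRing A] [IsLocalRing A] [Algebra A k] (ℓ : ℕ) (f : k[X])
    (x : F) (s : Splitting k F Ω K N) (M L : IntermediateField F Ω) : Prop :=
  (IsUnramified A x M s ∨ FromOneRationalPoint f x s M L) ∧
  (BadReduction A k x L ∨ FixesTwist A ℓ x M s → FromOneRationalPoint f x s M L)

/-- Every section of `Gal(N/L) → Gal(K/k)`, that is, every splitting `s` of `Gal(N/F) → Gal(K/k)` whose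
values are the identity on `L`, is as in `UnramifiedOrFromPoint`. -/
def AllUnramifiedOrFromPoint (A : Type) [CommRing A] [IsLocalRing A] [Algebra A k] (K N : Type)
    [Field K] [Field N] [Algebra k K] [Algebra F N] [Algebra K Ω] [Algebra N Ω] (ℓ : ℕ) (f : k[X])
    (x : F) (M L : IntermediateField F Ω) : Prop :=
  ∀ s : Splitting k F Ω K N, (∀ σ, ∀ z : N, algebraMap N Ω z ∈ L → s.toHom σ z = z) →
    UnramifiedOrFromPoint A ℓ f x s M L

/-- Let `F` be an `EllCovering` for the polynomial `f`, and `M` its maximal unramified geometrically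
pro-`ℓ` extension.  (a) `M` is the universal field of `ℓ` and `f`.  (b) The Gauss valuation of `k̄(x)`
has exactly one extension to `M`.  (c) Let `F ⊆ L ⊆ M ⊆ N`.  Every section of `Gal(N/L) → G_k` is
unramified on `M`, or it induces on `M` the section of exactly one point above a root of `f`, and this
is a `k`-rational point of the curve with function field `L`.  The second case holds if `L` has bad
reduction, or if the section fixes some `y` as in `FixesTwist`. -/
def SectionsOfEllCoverings (A k : Type) [CommRing A] [IsLocalRing A] [Field k] [Algebra A k] (ℓ : ℕ)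
    (f : k[X]) : Prop :=
  ∀ (F Ω : Type) [Field F] [Field Ω] [Algebra k F] [Algebra F Ω] [Algebra k Ω]
    [IsScalarTower k F Ω] [IsAlgClosure F Ω] (x : F), EllCovering ℓ Ω f x →
    (proEllField ℓ k F Ω : Set Ω) =
      universalOfLine ℓ k (algebraMap F Ω x) (algebraMap F Ω (aeval x f)) ∧
    GaussUnique A k (algebraicClosure k Ω) (algebraMap F Ω x) (proEllField ℓ k F Ω : Set Ω) ∧
    ∀ L N : IntermediateField F Ω, L ≤ proEllField ℓ k F Ω → proEllField ℓ k F Ω ≤ N →
      AllUnramifiedOrFromPoint A (algebraicClosure k Ω) N ℓ f x (proEllField ℓ k F Ω) L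

/-- `F = k(x, y_i, i ∈ I)` with `d_i y_i^ℓ = g_i(x)`, where `d_i ∈ k` is not zero, `g_i ∈ A[x]` divides
a power of `f` and has a degree divisible by `ℓ`, and every root of `f` is a root of some `g_i` with a
multiplicity not divisible by `ℓ`. -/
structure ElementaryCovering {A k F : Type} (Ω : Type) [CommRing A] [Field k] [Algebra A k]
    [Field F] [Field Ω] [Algebra k F] [Algebra k Ω] (ℓ : ℕ) (f : A[X]) {I : Type}
    (g : I → A[X]) (d : I → k) (x : F) (y : I → F) : Prop where
  transcendental : Transcendental k x
  ne_zero : ∀ i, d i ≠ 0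
  eqn : ∀ i, algebraMap k F (d i) * y i ^ ℓ = aeval x ((g i).map (algebraMap A k))
  generate : IntermediateField.adjoin k (insert x (Set.range y)) = (⊤ : IntermediateField k F)
  dvd : ∀ i, ∃ n : ℕ, g i ∣ f ^ n
  degree : ∀ i, ℓ ∣ (g i).natDegree
  mult : ∀ e : Ω, aeval e (f.map (algebraMap A k)) = 0 → ∃ i,
    ¬ ℓ ∣ ((g i).map ((algebraMap k Ω).comp (algebraMap A k))).rootMultiplicity e

/-- Every `ElementaryCovering` is an `EllCovering`, and if the valuation of some `d_i` is not divisible
by `ℓ`, then, for `F ⊆ L ⊆ M ⊆ N`, every section of `Gal(N/L) → G_k` induces on `M` the section of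
exactly one point above a root of `f`, and this is a `k`-rational point of the curve with function
field `L`. -/
def SectionsOfElementaryCoverings (A k : Type) [CommRing A] [Field k] [Algebra A k] (ℓ : ℕ)
    (f : A[X]) : Prop :=
  ∀ (F Ω : Type) [Field F] [Field Ω] [Algebra k F] [Algebra F Ω] [Algebra k Ω]
    [IsScalarTower k F Ω] [IsAlgClosure F Ω] (I : Type) (g : I → A[X]) (d : I → k) (x : F)
    (y : I → F), ElementaryCovering Ω ℓ f g d x y →
    EllCovering ℓ Ω (f.map (algebraMap A k)) x ∧
    ((∃ i, ValuationPrimeTo A ℓ (d i)) →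
      ∀ L N : IntermediateField F Ω, L ≤ proEllField ℓ k F Ω → proEllField ℓ k F Ω ≤ N →
        AllFromOneRationalPoint (algebraicClosure k Ω) N (f.map (algebraMap A k)) x
          (proEllField ℓ k F Ω) L)

end definitions

lemma same_iff {Ω : Type} [Field Ω] {W : ValuationSubring Ω} {a b : Ω} (ha : a ≠ 0) (hb : b ≠ 0) :
    Pool.Agent.Y157.PS.IsU W (a / b) ↔ SameValue W a b :=
  ⟨fun h => h.2, fun h => ⟨div_ne_zero ha hb, h⟩⟩

lemma universal_eq (ℓ : ℕ) (k : Type) {K Ω : Type} [Field k] [Field K] [Field Ω] [Algebra k Ω]
    [Algebra K Ω] (u : Ω) :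
    universalField (K := K) ℓ k u = Pool.Agent.H71SC.orbi (K := K) ℓ k u := by
  unfold universalField Pool.Agent.H71SC.orbi
  refine iSup_congr_prop fun L => ?_
  constructor
  · rintro ⟨⟨h1, h2, h3⟩, h4⟩
    refine ⟨⟨h1, h2, h3⟩, fun W hW z hz hz0 => ?_⟩
    obtain ⟨h5, h6⟩ := h4 W hW z hz hz0
    refine ⟨fun h => ?_, fun h => ?_⟩
    · obtain ⟨t, ht, h7⟩ := h5 h
      exact ⟨t, ht, (same_iff (pow_ne_zero _ hz0) ((_root_.map_ne_zero _).2 ht)).2 h7⟩
    · obtain ⟨t, ht, h7⟩ := h6 h
      exact ⟨t, ht, (same_iff hz0 ((_root_.map_ne_zero _).2 ht)).2 h7⟩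
  · rintro ⟨⟨h1, h2, h3⟩, h4⟩
    refine ⟨⟨h1, h2, h3⟩, fun W hW z hz hz0 => ?_⟩
    obtain ⟨h5, h6⟩ := h4 W hW z hz hz0
    refine ⟨fun h => ?_, fun h => ?_⟩
    · obtain ⟨t, ht, h7⟩ := h5 h
      exact ⟨t, ht, h7.2⟩
    · obtain ⟨t, ht, h7⟩ := h6 h
      exact ⟨t, ht, h7.2⟩

section proof

variable {A k : Type} [CommRing A] [IsDomain A] [IsDiscreteValuationRing A]
    [IsAdicComplete (IsLocalRing.maximalIdeal A) A] [Finite (IsLocalRing.ResidueField A)]
    [Field k] [CharZero k] [Algebra A k] [IsFractionRing A k] {ℓ : ℕ} [Fact ℓ.Prime]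
    {f : A[X]}

lemma general (hℓ : IsUnit (ℓ : A)) (hf : GoodPolynomial ℓ f) :
    SectionsOfEllCoverings A k ℓ (f.map (algebraMap A k)) := by
  obtain ⟨hlc, hs, hdvd, h3⟩ := hf
  intro F Ω _ _ _ _ _ _ _ x hC
  obtain ⟨hx, halg, hmem, hram⟩ := hC
  have hcl : IsAlgClosed Ω := IsAlgClosure.isAlgClosed F
  have halgΩ : Algebra.IsAlgebraic F Ω := IsAlgClosure.isAlgebraic
  have hu0 : algebraMap F Ω (aeval x (f.map (algebraMap A k))) ≠ 0 := by
    rw [_root_.map_ne_zero]
    intro h0
    have h1 : f.map (algebraMap A k) ≠ 0 := by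
      intro h2
      have h4 : algebraMap A k f.leadingCoeff ≠ 0 := (hlc.map (algebraMap A k)).ne_zero
      apply h4
      rw [← leadingCoeff_map_of_leadingCoeff_ne_zero _ h4, h2, leadingCoeff_zero]
    exact h1 ((transcendental_iff.1 hx) _ h0)
  have hcov : ∀ z : F, algebraMap F Ω z ∈ Pool.Agent.H71SC.orbi (K := IntermediateField.adjoin
      (algebraicClosure k Ω) {algebraMap F Ω x}) ℓ k
      (algebraMap F Ω (aeval x (f.map (algebraMap A k)))) := by
    intro z
    rw [← universal_eq]
    exact hmem z
  have hunr : ∀ W : ValuationSubring Ω, (∀ c : k, algebraMap k Ω c ∈ W) →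
      algebraMap F Ω (aeval x (f.map (algebraMap A k))) ∈ W.nonunits →
      ∃ t ∈ Pool.Agent.Y157.PS.geomF k F Ω, t ≠ 0 ∧ Pool.Agent.Y157.PS.IsU W
        (t ^ ℓ / algebraMap F Ω (aeval x (f.map (algebraMap A k)))) := by
    intro W hW h
    obtain ⟨t, ht, ht0, h5⟩ := hram W hW h
    exact ⟨t, ht, ht0, (same_iff (pow_ne_zero _ ht0) hu0).2 h5⟩
  obtain ⟨h0, hex, huq, -⟩ := Pool.Agent.H71SC.padic2 (Ω := Ω) hℓ f hlc hs hdvd h3 x hx halg hcov
    hunr
  refine ⟨Set.ext fun z => ?_, ⟨hex, fun O O' hO hO' z hz => ?_⟩, ?_⟩
  · rw [proEll_eq, universalOfLine, universalSet, Set.mem_ofPred_eq, universal_eq]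
    exact h0 z
  · rw [proEll_eq] at hz
    exact huq O O' hO hO' z hz
  intro L N hL hN s hsL
  have hN' := hN
  rw [proEll_eq] at hN'
  -- the dichotomy
  have hdich : IsUnramified A x (proEllField ℓ k F Ω) s ∨
      FromOneRationalPoint (f.map (algebraMap A k)) x s (proEllField ℓ k F Ω) L := by
    rcases Pool.Agent.H71SC.padicM2 hℓ f hlc hs hdvd h3 x hx halg hcov hunr N hN' s.toHom s.cont
      (fun σ c z hz => s.compat σ c z hz) with hU | ⟨W, ⟨⟨h1, ⟨e, he, h2⟩, h3'⟩, h4⟩, hun⟩
    · left
      intro O hO σ hσ z hz hzO
      rw [proEll_eq] at hz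
      exact hU O hO σ (fun c hc => hσ c (Set.mem_univ _) hc) z hz hzO
    · right
      have h4' : InDecomposition s (proEllField ℓ k F Ω) W := by
        rw [proEll_eq]
        exact h4
      refine ⟨W, ⟨e, ?_, h1, h2⟩, ?_, h4',
        fun s' hs' => unique_section N hN s s' W h1 h3' h4' hs', ?_⟩
      · rwa [aeval_def, Algebra.algebraMap_self, eval₂_id] at he
      · intro z hzL hz
        exact rational_residue L N hL hN s hsL W h1 h3' h4' z hzL hz
      · rw [proEll_eq]
        exact fun W' b1 b2 => hun W' b1.1 b1.2 b2
  refine ⟨hdich, ?_⟩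
  rintro (⟨O, hO, τ, hτL, hτc, hz⟩ | ⟨g, d, y, hg, hd, hyM, hfix, hy⟩)
  · refine hdich.resolve_left fun hU => hz fun z hzL hzO => ?_
    -- the restriction of `τ` to `k̄`
    have hκN : ∀ c : algebraicClosure k Ω, (c : Ω) ∈ N := fun c => hN (mem_proEll c)
    let τk : Ω ≃ₐ[k] Ω := τ.restrictScalars k
    have hac : IsAlgClosure k (algebraicClosure k Ω) := inferInstance
    have hnor : Normal k (algebraicClosure k Ω) := IsAlgClosure.normal k _
    let σ : algebraicClosure k Ω ≃ₐ[k] algebraicClosure k Ω := τk.restrictNormal _
    have hσ : ∀ c : algebraicClosure k Ω, τ (c : Ω) = (σ c : Ω) := fun c =>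
      (AlgEquiv.restrictNormal_commutes τk (algebraicClosure k Ω) c).symm
    have hLN : L ≤ N := hL.trans hN
    obtain ⟨hzN, hag⟩ := Pool.Agent.H71SC.agree N L hLN hκN s.toHom
      (fun σ c z hz => s.compat σ c z hz) hsL σ τ hτL hσ z hzL
    have hzM : z ∈ proEllField ℓ k F Ω := by
      have h5 : IntermediateField.adjoin F ((algebraicClosure k Ω : Set Ω) ∪ (L : Set Ω)) ≤
          proEllField ℓ k F Ω := by
        refine IntermediateField.adjoin_le_iff.2 ?_
        rintro w (hw | hw)
        · exact mem_proEll ⟨w, hw⟩
        · exact hL hw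
      exact h5 hzL
    have h5 := hU O hO σ (fun c _ hc => by
      have h6 : τ (c : Ω) - (c : Ω) ∈ O.nonunits := hτc (c : Ω) c.2 hc
      rw [hσ] at h6
      exact h6) ⟨z, hzN⟩ hzM hzO
    have h6 : algebraMap N Ω (s.toHom σ ⟨z, hzN⟩ - ⟨z, hzN⟩) = τ z - z := by
      rw [← hag]
      rfl
    rw [h6] at h5
    exact h5
  · refine hdich.resolve_left fun hU => ?_
    obtain ⟨O, hO⟩ := hex
    obtain ⟨ϖ, t, m, hϖ, ht, hm, hdt⟩ := hd
    refine Pool.Agent.H71SC.crit_y hℓ (algebraMap F Ω x) N (proEllField ℓ k F Ω) hN
      (fun c => mem_proEll c) O hO s.toHom (fun σ c z hz => s.compat σ c z hz)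
      (fun σ hσ z hz hzO => hU O hO σ (fun c _ hc => hσ c hc) z hz hzO) ϖ hϖ d m hm t ht hdt g hg y
      hyM hfix ?_
    refine hy.trans ?_
    rw [← aeval_algebraMap_apply]

lemma elementary (hℓ : IsUnit (ℓ : A)) (hf : GoodPolynomial ℓ f) :
    SectionsOfElementaryCoverings A k ℓ f := by
  have hgen := general (k := k) hℓ hf
  obtain ⟨hlc, hs, hdvd, h3⟩ := hf
  intro F Ω _ _ _ _ _ _ _ I g d x y hE
  obtain ⟨hx, hd, hxy, hF, hgf, hdeg, hmul⟩ := hE
  have hcl : IsAlgClosed Ω := IsAlgClosure.isAlgClosed F
  have halgΩ : Algebra.IsAlgebraic F Ω := IsAlgClosure.isAlgebraic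
  obtain ⟨h1, h2⟩ := Pool.Agent.H71SC.expl (Ω := Ω) f hlc hs hdvd h3 g d x y hx hd hxy hF hgf hdeg
    hmul
  have hC : EllCovering ℓ Ω (f.map (algebraMap A k)) x := by
    refine ⟨hx, Pool.Agent.H71SC.alg_expl (A := A) (Fact.out : ℓ.Prime).pos g d x y hd hxy hF,
      fun z => ?_, fun W hW hu => ?_⟩
    · rw [universalOfLine, universalSet, Set.mem_ofPred_eq, universal_eq]
      exact h1 z
    · obtain ⟨t, ht, ht0, h5⟩ := h2 W hW hu
      exact ⟨t, ht, ht0, h5.2⟩
  refine ⟨hC, ?_⟩
  rintro ⟨i, hi⟩ L N hL hN s hsL
  obtain ⟨-, -, hsec⟩ := hgen F Ω x hC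
  refine (hsec L N hL hN s hsL).2 (Or.inr ⟨g i, d i, algebraMap F N (y i), ?_, hi, ?_, ?_, ?_⟩)
  · obtain ⟨n, h, hh⟩ := hgf i
    have h5 : (g i).leadingCoeff * h.leadingCoeff = f.leadingCoeff ^ n := by
      rw [← leadingCoeff_mul, ← hh, leadingCoeff_pow]
    exact isUnit_of_mul_isUnit_left (y := h.leadingCoeff) (by rw [h5]; exact hlc.pow _)
  · exact (proEllField ℓ k F Ω).algebraMap_mem (y i)
  · exact fun σ => (s.toHom σ).commutes (y i)
  · rw [← hxy, map_mul, map_pow, ← IsScalarTower.algebraMap_apply k F Ω]
    rfl

end proof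

/-- Let `A` be a complete discrete valuation ring with finite residue field and with field of
fractions `k` of characteristic zero, `ℓ` a prime number invertible in `A`, and `f ∈ A[x]` a polynomial
with invertible leading coefficient and separable reduction, whose degree is at least 3 and divisible
by `ℓ`.  Let `C → ℙ¹` be a branched covering over `k` whose geometric monodromy group is an `ℓ`-group,
whose ramification indices above the roots of `f` are `ℓ`, and which has no other ramification.  Every
section of the geometrically pro-`ℓ` fundamental group of `C` is unramified, or it is the section of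
exactly one point of `C` above a root of `f`, and this is a `k`-rational point; if `C` has bad reduction,
the second case holds for all sections (`SectionsOfEllCoverings`).  The second case holds for all
sections also for the curves given by equations `d_i y_i^ℓ = g_i(x)` where the `g_i` divide powers of
`f` and the valuation of some `d_i` is not divisible by `ℓ` (`SectionsOfElementaryCoverings`). -/
theorem result (A k : Type) [CommRing A] [IsDomain A] [IsDiscreteValuationRing A]
    [IsAdicComplete (IsLocalRing.maximalIdeal A) A] [Finite (IsLocalRing.ResidueField A)]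
    [Field k] [CharZero k] [Algebra A k] [IsFractionRing A k] (ℓ : ℕ) [Fact ℓ.Prime]
    (f : A[X]) (hℓ : IsUnit (ℓ : A)) (hf : GoodPolynomial ℓ f) :
    SectionsOfEllCoverings A k ℓ (f.map (algebraMap A k)) ∧ SectionsOfElementaryCoverings A k ℓ f :=
  ⟨general hℓ hf, elementary hℓ hf⟩

end Pool.Agent.Results.MP_c385f6_ag.EllMonodromyCovers
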