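import Pool.Agent.Results.MP_c385f6_ag.MixedRamification
import Pool.Agent.H71MX.BC
import Pool.Agent.H71MX.Descent
import Pool.Agent.H71MX.Stab

/-!
# Sections of coverings whose branch data are given over a Galois extension of the ground field

Let `k` be a field of characteristic zero and `E/k` a finite Galois extension, and suppose that `E` is
the field of fractions of a complete discrete valuation ring `A` with finite residue field, for
instance finite extensions `k ⊆ E` of `ℚ_p`.  Let `ℓ` be a prime number invertible in `A`, `m = ℓ^j` with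
`j ≥ 1`, and let `g ∈ A[x]` be a polynomial with invertible leading coefficient such that `g(x^m)` has
separable reduction and degree at least 3.  Let `t^m = x`, `y^ℓ = g(x)`, and let `M` be the maximal
unramified pro-`ℓ` extension of `k̄(t, y)`.  These are the data of
`MP_c385f6_ag.MixedRamification` over `E`.

We consider the curves `C` over `k` such that `C_E` is a covering of the `x`-line over `E` as in
`MP_c385f6_ag.MixedRamification`: if `F` is the function field of `C`, then `x ∈ E F` and `E F ⊆ M`.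
Neither the function `x` nor the points above `0` and `∞` and the good reduction of the branch divisor
need to be defined over `k`.  We only assume that the set of the points of `C` above `0`, `∞` and the
zeros of `g(x)` is defined over `k` (`SpecialStable`) and that `M/F` is Galois, which is clear if `M` is
the maximal unramified pro-`ℓ` extension of `k̄ F`; or that `β x` and `c g(x)` are in `F` for some
`β, c ∈ E*`.

**Theorem.**
* Every section of `Gal(M/F) → G_k` is unramified over `E`, or it is the section of exactly one special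
  point of `C` (above `0`, `∞` or a zero of `g(x)`), and this is a `k`-rational point of `C`.
* If `C` has bad reduction over `E`, then all sections are of the second kind.  In particular there are
  no sections if there are no `k`-rational special points.
* Let `g₀ ∈ k[X]` be a polynomial with `g₀(β X) = c₁ g(X)`, `β, c₁ ∈ E*`.  For example, `g₀ = X^n - ϖ` and
  `g = X^n - 1`, `β^n = ϖ`, where `n` is invertible in `A`.  For the curve `c w^m = u^a g₀(u)^(b m / ℓ)`,
  where `c ∈ k*` and `a`, `b` and `a + b deg(g) m / ℓ` are not divisible by `ℓ`, the field `M` is the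
  maximal unramified pro-`ℓ` extension of `k̄(u, w)`, and if the valuation of `c / (β^a c₁^(b m / ℓ))` is
  not divisible by `m`, then all sections are sections of rational special points.

For instance, let `m = ℓ ≥ 5` and `g = x - 1`, and let `x` be a Möbius transform of a coordinate `u` over
`k` such that the points `x = 0, 1, ∞` are three points which are conjugate over `k`.  The theorem is
about all coverings of the `u`-line, and of its twists, that are branched over these points with
indices `ℓ`, for example the curves `Tr(α z^ℓ) = 0` in the projective plane of a cubic extension of `k`.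

Proof.  By `MP_c385f6_ag.MixedRamification`, applied to the restriction of the section `s` to
`G_E = Gal(k̄/E)`, which is a section for `E F`, the restriction is unramified or fixes exactly one
special valuation ring `W ∩ M`.  In the second case let `σ ∈ G_k`.  Then `s(σ)⁻¹ W ∩ M` is also special
and fixed by `s(G_E)`, as `G_E` is normal in `G_k`; by uniqueness it is `W ∩ M`.  So all of `s(G_k)` fixes
`W ∩ M`.  If `z ∈ W ∩ F`, then `z ≡ c` for some `c ∈ E`, as the residue field of `W ∩ E F` is `E`; and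
`s(σ)` fixes `z` and maps `c` to `σ(c)`, hence `c ≡ σ(c)` and `c = σ(c)`, so `c ∈ k`.
-/

set_option autoImplicit false

open Polynomial

namespace Pool.Agent.Results.MP_c385f6_ag.GaloisDescent

open Pool.Agent.H59.SCT
open Pool.Agent.H71MX (overF overEquiv closureEquiv galIncl)
open Pool.Agent.Y157.PS (non_incl non_mul non_sub)
open EllMonodromyCovers (IsGauss ActsTrivially)
open MixedRamification (GoodPolynomial ValuationNotDivisible InMax AboveSpecial FromSpecialPlace
  BadReduction SectionsDetermined)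

section definitions

variable {k Ω : Type} [Field k] [Field Ω] [Algebra k Ω]

/-- The valuation ring `W` of `Ω` is special: it is above `x = 0`, `x = ∞` or a zero of `h`. -/
def Special (x h : Ω) (W : ValuationSubring Ω) : Prop :=
  x ∈ W.nonunits ∨ x⁻¹ ∈ W.nonunits ∨ h ∈ W.nonunits

/-- The set of the special valuation rings of `Ω` that contain `E` is stable under all automorphisms
of `Ω` over `F`. -/
def SpecialStable (E : Type) [Field E] [Algebra E Ω] (x h : Ω) (F : IntermediateField k Ω) : Prop :=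
  ∀ τ : Ω ≃ₐ[F] Ω, ∀ W : ValuationSubring Ω, (∀ c : E, algebraMap E Ω c ∈ W) → Special x h W →
    Special x h (W.comap ((τ : Ω ≃+* Ω) : Ω →+* Ω))

/-- The subfield `M` of `Ω` is stable under all automorphisms of `Ω` over `F`: the extension `M/F` is
Galois. -/
def GaloisOver {E : Type} [Field E] [Algebra E Ω] (M : IntermediateField E Ω)
    (F : IntermediateField k Ω) : Prop :=
  ∀ τ : Ω ≃ₐ[F] Ω, ∀ z ∈ M, τ z ∈ M

/-- Either the set of the special valuation rings is stable under the automorphisms of `Ω` over `F`,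
and `M/F` is Galois or `F` is finitely generated over `k` and `M/k̄ F` is unramified; or `β x` and
`c h` are in `F` for some `β, c ∈ E*`. -/
def Admissible {E : Type} [Field E] [Algebra k E] [Algebra E Ω] [IsScalarTower k E Ω] (x h : Ω)
    (M : IntermediateField E Ω) (F : IntermediateField k Ω) : Prop :=
  (SpecialStable E x h F ∧
    (GaloisOver M F ∨ F.FG ∧ UnramifiedOver (geom F) (M.restrictScalars k))) ∨
  ∃ β c : E, β ≠ 0 ∧ c ≠ 0 ∧ algebraMap E Ω β * x ∈ F ∧ algebraMap E Ω c * h ∈ F

/-- The automorphism `σ` of the algebraic closure of `k` in `Ω` fixes the elements of `E`. -/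
def Fixes (E : Type) [Field E] [Algebra E Ω]
    (σ : algebraicClosure k Ω ≃ₐ[k] algebraicClosure k Ω) : Prop :=
  ∀ (c : E) (c' : algebraicClosure k Ω), (c' : Ω) = algebraMap E Ω c → σ c' = c'

variable {F : IntermediateField k Ω} {N : IntermediateField F Ω}

/-- The restriction of the section `s` to `Gal(k̄/E)` is unramified on `M`: if the valuation ring `O`
of `Ω` induces the Gauss valuation on `k̄(t)`, then for all `σ ∈ Gal(k̄/E)` which act trivially on the
residue field of `O ∩ k̄`, the automorphism `s(σ)` acts trivially on the residue field of `O ∩ M`. -/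
def IsUnramified (A : Type) {E : Type} [CommRing A] [IsLocalRing A] [Field E] [Algebra A E]
    [Algebra E Ω] (t : Ω) (M : IntermediateField E Ω) (s : Splitting F N) : Prop :=
  ∀ O : ValuationSubring Ω, IsGauss A E (algebraicClosure k Ω) t O →
    ∀ σ : algebraicClosure k Ω ≃ₐ[k] algebraicClosure k Ω, Fixes E σ →
      ActsTrivially O Set.univ σ → ActsTrivially O (M : Set Ω) (s.toHom σ)

/-- There is an element `z` of `M` with `c z^(ℓ^r) = h(t)` that is fixed by `s(σ)` for all
`σ ∈ Gal(k̄/E)`, where the leading coefficient of `h ∈ A[X]` is invertible and the valuation of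
`c ∈ E` is not divisible by `ℓ^r`. -/
def FixesTwist (A : Type) {E : Type} [CommRing A] [Field E] [Algebra A E] [Algebra E Ω] (ℓ : ℕ)
    (t : Ω) (M : IntermediateField E Ω) (s : Splitting F N) : Prop :=
  ∃ (r : ℕ) (h : A[X]) (c : E) (z : N), IsUnit h.leadingCoeff ∧
    ValuationNotDivisible A (ℓ ^ r) c ∧ (z : Ω) ∈ M ∧ (∀ σ, Fixes E σ → s.toHom σ z = z) ∧
    algebraMap E Ω c * (z : Ω) ^ (ℓ ^ r) = aeval t (h.map (algebraMap A E))

/-- For all extensions `N ⊇ M` of `F`, every section `s` of `Gal(N/F) → G_k` is unramified on `M` over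
`E`, or it induces on `M` the section of exactly one special place, and this is `k`-rational.  The
second case holds if `E F` has bad reduction over `E`, or if `s` fixes an element as in
`FixesTwist`. -/
def Sections (A : Type) {E : Type} [CommRing A] [IsLocalRing A] [Field E] [Algebra A E]
    [Algebra k E] [Algebra E Ω] [IsScalarTower k E Ω] (ℓ : ℕ) (t x h : Ω)
    (M : IntermediateField E Ω) (F : IntermediateField k Ω) : Prop :=
  ∀ N : IntermediateField F Ω, (∀ z ∈ M, z ∈ N) → ∀ s : Splitting F N,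
    (IsUnramified A t M s ∨ FromSpecialPlace x h (M.restrictScalars k) s) ∧
    (BadReduction A t (IntermediateField.adjoin E (F : Set Ω)) ∨ FixesTwist A ℓ t M s →
      FromSpecialPlace x h (M.restrictScalars k) s)

/-- Let `g₀ ∈ k[X]`, `g₀(β X) = c₁ g(X)` with `β, c₁ ∈ E*`, and let `u = β x` and
`c w^m = u^a g₀(u)^(b m / ℓ)`, `m = ℓ^j`, where `c ∈ k` is not zero and `a`, `b` and
`a + b deg(g) m / ℓ` are not divisible by `ℓ`.  Then `M` is the maximal unramified pro-`ℓ` extension of
`k̄(u, w)`.  If the valuation of `c / (β^a c₁^(b m / ℓ)) ∈ E` is not divisible by `m`, then, for all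
extensions `N ⊇ M` of `k(u, w)`, every section of `Gal(N/k(u, w)) → G_k` induces on `M` the section of
exactly one special place, and it is `k`-rational. -/
def SectionsOfCurves (A k : Type) {E Ω : Type} [CommRing A] [Field E] [Algebra A E] [Field k]
    [Algebra k E] [Field Ω] [Algebra k Ω] [Algebra E Ω] [IsScalarTower k E Ω] (ℓ j : ℕ)
    (g : A[X]) (x : Ω) (M : IntermediateField E Ω) : Prop :=
  ∀ (β c₁ : E) (g₀ : k[X]), β ≠ 0 → c₁ ≠ 0 →
    (g₀.map (algebraMap k E)).comp (C β * X) = C c₁ * g.map (algebraMap A E) →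
    ∀ (a b : ℕ) (c : k) (u w : Ω), ¬ ℓ ∣ a → ¬ ℓ ∣ b → ¬ ℓ ∣ a + b * g.natDegree * ℓ ^ (j - 1) →
    c ≠ 0 → u = algebraMap E Ω β * x →
    algebraMap k Ω c * w ^ (ℓ ^ j) = u ^ a * aeval u g₀ ^ (b * ℓ ^ (j - 1)) →
    proEll ℓ (IntermediateField.adjoin k {u, w}) = M.restrictScalars k ∧
    (ValuationNotDivisible A (ℓ ^ j) (algebraMap k E c / (β ^ a * c₁ ^ (b * ℓ ^ (j - 1)))) →
      ∀ N : IntermediateField (IntermediateField.adjoin k {u, w}) Ω, (∀ z ∈ M, z ∈ N) →
        ∀ s : Splitting (IntermediateField.adjoin k {u, w}) N,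
          FromSpecialPlace x (aeval x (g.map (algebraMap A E))) (M.restrictScalars k) s)

end definitions

section proof

variable {k E Ω : Type} [Field k] [Field E] [Field Ω] [Algebra k E] [Algebra k Ω] [Algebra E Ω]
  [IsScalarTower k E Ω]

/-- the field `Ω` is algebraic over `F` -/
lemma alg_F [Algebra.IsAlgebraic k E] {x : Ω} (F : IntermediateField k Ω)
    (halg : Algebra.IsAlgebraic (IntermediateField.adjoin E {x}) Ω)
    (hxF : x ∈ IntermediateField.adjoin E (F : Set Ω)) : Algebra.IsAlgebraic F Ω := by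
  set R := algebraicClosure F Ω with hR
  have hER : ∀ c : E, algebraMap E Ω c ∈ R.toSubfield := by
    intro c
    change algebraMap E Ω c ∈ algebraicClosure F Ω
    rw [mem_algebraicClosure_iff]
    have h1 : IsAlgebraic k (algebraMap E Ω c) :=
      (Algebra.IsAlgebraic.isAlgebraic (R := k) c).algebraMap
    exact h1.extendScalars (algebraMap k F).injective
  have hEF : ∀ z ∈ IntermediateField.adjoin E (F : Set Ω), z ∈ R.toSubfield :=
    Pool.Agent.Y157.PS.adjoin_le_sub hER (fun z hz => R.algebraMap_mem ⟨z, hz⟩)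
  have hEx : ∀ z ∈ IntermediateField.adjoin E {x}, z ∈ R.toSubfield := by
    refine Pool.Agent.Y157.PS.adjoin_le_sub hER (fun z hz => ?_)
    rw [Set.mem_singleton_iff] at hz
    rw [hz]
    exact hEF x hxF
  refine ⟨fun z => ?_⟩
  obtain ⟨p, hp, hpz⟩ := halg.isAlgebraic z
  let i : IntermediateField.adjoin E {x} →+* R :=
    (algebraMap (IntermediateField.adjoin E {x}) Ω).codRestrict R.toSubfield
      (fun z => hEx z z.2)
  have h3 : IsAlgebraic R z := by
    refine ⟨p.map i, (Polynomial.map_ne_zero_iff i.injective).2 hp, ?_⟩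
    rw [Polynomial.aeval_def, Polynomial.eval₂_map]
    have h2 : (algebraMap R Ω).comp i = algebraMap (IntermediateField.adjoin E {x}) Ω := rfl
    rw [h2]
    exact hpz
  exact h3.restrictScalars F

lemma fixes_galIncl [Algebra.IsAlgebraic k E]
    (σ : algebraicClosure E Ω ≃ₐ[E] algebraicClosure E Ω) : Fixes E (galIncl k E Ω σ) := by
  intro c c' hc
  have h1 : closureEquiv k E Ω c' = algebraMap E (algebraicClosure E Ω) c := Subtype.ext hc
  rw [Pool.Agent.H71MX.galIncl_apply, h1, σ.commutes, ← h1, RingEquiv.symm_apply_apply]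

/-- the Gauss valuation does not depend on the name of the algebraic closure -/
lemma gauss_conv [Algebra.IsAlgebraic k E] {A : Type} [CommRing A] [IsLocalRing A] [Algebra A E]
    {t : Ω} {O : ValuationSubring Ω} (hO : IsGauss A E (algebraicClosure E Ω) t O) :
    IsGauss A E (algebraicClosure k Ω) t O := by
  obtain ⟨h1, h2, h3, h4⟩ := hO
  refine ⟨h1, h2, h3, fun p hp hp' => ?_⟩
  have h5 : aeval t p = aeval t (p.map (closureEquiv k E Ω : algebraicClosure k Ω →+*
      algebraicClosure E Ω)) := by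
    rw [aeval_def, aeval_def, eval₂_map]
    rfl
  rw [h5]
  refine h4 _ (fun n => ?_) ?_
  · rw [coeff_map]
    exact hp n
  · obtain ⟨n, hn⟩ := hp'
    refine ⟨n, ?_⟩
    rw [coeff_map]
    exact hn

lemma gauss_conv' [Algebra.IsAlgebraic k E] {A : Type} [CommRing A] [IsLocalRing A] [Algebra A E]
    {t : Ω} {O : ValuationSubring Ω} (hO : IsGauss A E (algebraicClosure k Ω) t O) :
    IsGauss A E (algebraicClosure E Ω) t O := by
  obtain ⟨h1, h2, h3, h4⟩ := hO
  refine ⟨h1, h2, h3, fun p hp hp' => ?_⟩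
  have h5 : aeval t p = aeval t (p.map ((closureEquiv k E Ω).symm : algebraicClosure E Ω →+*
      algebraicClosure k Ω)) := by
    rw [aeval_def, aeval_def, eval₂_map]
    rfl
  rw [h5]
  refine h4 _ (fun n => ?_) ?_
  · rw [coeff_map]
    exact hp n
  · obtain ⟨n, hn⟩ := hp'
    refine ⟨n, ?_⟩
    rw [coeff_map]
    exact hn

end proof

section stable

variable {k E Ω : Type} [Field k] [Field E] [Field Ω] [Algebra k E] [Algebra k Ω] [Algebra E Ω]
  [IsScalarTower k E Ω] [Normal k E]

/-- the automorphisms over `F` map `E` to `E` -/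
lemma map_E {F : IntermediateField k Ω} (τ : Ω ≃ₐ[F] Ω) (c : E) :
    ∃ d : E, τ (algebraMap E Ω c) = algebraMap E Ω d :=
  ⟨(τ.restrictScalars k).restrictNormal E c,
    (AlgEquiv.restrictNormal_commutes (τ.restrictScalars k) E c).symm⟩

/-- the automorphisms over `F` map the algebraic closure of `E` to itself -/
lemma map_closure {F : IntermediateField k Ω} (τ : Ω ≃ₐ[F] Ω) (z : Ω)
    (hz : z ∈ algebraicClosure E Ω) : τ z ∈ algebraicClosure E Ω := by
  rw [← Pool.Agent.H71MX.closure_iff (k := k), mem_algebraicClosure_iff] at hz ⊢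
  have h1 : IsAlgebraic k ((τ.restrictScalars k : Ω ≃ₐ[k] Ω) z) :=
    hz.algHom ((τ.restrictScalars k : Ω ≃ₐ[k] Ω) : Ω →ₐ[k] Ω)
  exact h1

/-- automorphisms that map generators of `L` to `k̄ L` map `k̄ L` to itself -/
lemma map_geom {F : IntermediateField k Ω} (τ : Ω ≃ₐ[F] Ω) (S : Set Ω)
    (hS : ∀ z ∈ S, τ z ∈ geom (IntermediateField.adjoin E S)) (z : Ω)
    (hz : z ∈ geom (IntermediateField.adjoin E S)) : τ z ∈ geom (IntermediateField.adjoin E S) := by
  let T : IntermediateField E Ω :=
    { (geom (IntermediateField.adjoin E S)).toSubfield.comap ((τ : Ω ≃+* Ω) : Ω →+* Ω) with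
      algebraMap_mem' := fun c => by
        obtain ⟨d, hd⟩ := map_E τ c
        change τ (algebraMap E Ω c) ∈ geom (IntermediateField.adjoin E S)
        rw [hd]
        exact IntermediateField.algebraMap_mem _ d }
  have h1 : geom (IntermediateField.adjoin E S) ≤ T := by
    refine sup_le ?_ ?_
    · rw [IntermediateField.adjoin_le_iff]
      exact fun z hz => hS z hz
    · intro w hw
      exact (le_sup_right : algebraicClosure E Ω ≤ geom (IntermediateField.adjoin E S))
        (map_closure τ w hw)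
  exact h1 hz

lemma map_proEll [IsAlgClosed Ω] [CharZero E] (ℓ : ℕ) [Fact ℓ.Prime] {F : IntermediateField k Ω}
    (S : Set Ω) (hS : ∀ τ : Ω ≃ₐ[F] Ω, ∀ z ∈ S, τ z ∈ geom (IntermediateField.adjoin E S))
    (τ : Ω ≃ₐ[F] Ω) (z : Ω) (hz : z ∈ proEll ℓ (IntermediateField.adjoin E S)) :
    τ z ∈ proEll ℓ (IntermediateField.adjoin E S) :=
  Pool.Agent.H71MX.stab ℓ (IntermediateField.adjoin E S) (τ : Ω ≃+* Ω)
    (fun z hz => map_geom τ S (hS τ) z hz) (fun z hz => map_geom τ.symm S (hS τ.symm) z hz)
    (fun c => map_E τ c) (fun c => map_E τ.symm c) z hz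

/-- an element that is multiplied by an element of `E` -/
lemma map_scaled {F : IntermediateField k Ω} (τ : Ω ≃ₐ[F] Ω) (β : E) (hβ : β ≠ 0) (x : Ω)
    (h : algebraMap E Ω β * x ∈ F) : ∃ ε : E, ε ≠ 0 ∧ τ x = algebraMap E Ω ε * x := by
  obtain ⟨d, hd⟩ := map_E τ β
  have hβΩ : algebraMap E Ω β ≠ 0 := (_root_.map_ne_zero _).2 hβ
  have hdΩ : algebraMap E Ω d ≠ 0 := by
    rw [← hd]
    exact (_root_.map_ne_zero τ).2 hβΩ
  have hd0 : d ≠ 0 := fun h => hdΩ (by rw [h, map_zero])
  refine ⟨β / d, div_ne_zero hβ hd0, ?_⟩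
  have h1 : τ (algebraMap E Ω β * x) = algebraMap E Ω β * x := τ.commutes ⟨_, h⟩
  rw [map_mul, hd] at h1
  rw [map_div₀, div_mul_eq_mul_div, eq_div_iff hdΩ, mul_comm, h1]

/-- a root of an element that is multiplied by a constant -/
lemma map_root {F : IntermediateField k Ω} (τ : Ω ≃ₐ[F] Ω) (n : ℕ) (hn : 0 < n) (x t : Ω)
    (ht : t ^ n = x) (hx : x ≠ 0) (ε : E) (h : τ x = algebraMap E Ω ε * x)
    (L : IntermediateField E Ω) (htL : t ∈ geom L) : τ t ∈ geom L := by
  have ht0 : t ≠ 0 := by
    rintro rfl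
    rw [zero_pow hn.ne'] at ht
    exact hx ht.symm
  have h1 : (τ t / t) ^ n = algebraMap E Ω ε := by
    rw [div_pow, ← map_pow, ht, h, mul_div_cancel_right₀ _ hx]
  have h2 : τ t / t ∈ algebraicClosure E Ω := by
    rw [mem_algebraicClosure_iff]
    have h3 : IsIntegral E (τ t / t) := by
      apply IsIntegral.of_pow hn
      rw [h1]
      exact isIntegral_algebraMap
    exact h3.isAlgebraic
  have h4 : τ t = (τ t / t) * t := (div_mul_cancel₀ _ ht0).symm
  rw [h4]
  exact mul_mem ((le_sup_right : algebraicClosure E Ω ≤ geom L) h2) htL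

lemma special_scaled {F : IntermediateField k Ω} (τ : Ω ≃ₐ[F] Ω) (W : ValuationSubring Ω)
    (hW : ∀ c : E, algebraMap E Ω c ∈ W) (x : Ω) (ε : E) (h : τ x = algebraMap E Ω ε * x)
    (hx : x ∈ W.nonunits) : x ∈ (W.comap ((τ : Ω ≃+* Ω) : Ω →+* Ω)).nonunits := by
  rw [non_incl]
  change τ x ∈ W.nonunits
  rw [h]
  exact non_mul (hW ε) hx

/-- **stability for scaled coordinates** -/
lemma stable_scaled [IsAlgClosed Ω] [CharZero E] {ℓ : ℕ} [Fact ℓ.Prime] {m : ℕ} (hm : 0 < m)
    {F : IntermediateField k Ω} {t x y h₀ : Ω} (ht : t ^ m = x) (hy : y ^ ℓ = h₀) (hx : x ≠ 0)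
    (hh₀ : h₀ ≠ 0) (β c₁ : E) (hβ : β ≠ 0) (hc₁ : c₁ ≠ 0) (hβF : algebraMap E Ω β * x ∈ F)
    (hcF : algebraMap E Ω c₁ * h₀ ∈ F) :
    GaloisOver (proEll ℓ (IntermediateField.adjoin E {t, y})) F ∧ SpecialStable E x h₀ F := by
  refine ⟨fun τ z hz => map_proEll ℓ {t, y} (fun τ w hw => ?_) τ z hz, fun τ W hW hsp => ?_⟩
  · obtain ⟨ε, -, h1⟩ := map_scaled τ β hβ x hβF
    obtain ⟨ε', -, h2⟩ := map_scaled τ c₁ hc₁ h₀ hcF
    rcases hw with rfl | rfl
    · exact map_root τ m hm x w ht hx ε h1 _ ((le_sup_left : _ ≤ geom _)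
        (IntermediateField.subset_adjoin _ _ (by simp)))
    · exact map_root τ ℓ (Fact.out : ℓ.Prime).pos h₀ w hy hh₀ ε' h2 _ ((le_sup_left : _ ≤ geom _)
        (IntermediateField.subset_adjoin _ _ (by simp)))
  · obtain ⟨ε, hε, h1⟩ := map_scaled τ β hβ x hβF
    obtain ⟨ε', hε', h2⟩ := map_scaled τ c₁ hc₁ h₀ hcF
    rcases hsp with h | h | h
    · exact Or.inl (special_scaled τ W hW x ε h1 h)
    · refine Or.inr (Or.inl (special_scaled τ W hW x⁻¹ ε⁻¹ ?_ h))
      rw [map_inv₀, h1, map_inv₀, mul_inv]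
    · exact Or.inr (Or.inr (special_scaled τ W hW h₀ ε' h2 h))

end stable

/-- the theorem for stable data -/
lemma core (A E k : Type) [CommRing A] [IsDomain A] [IsDiscreteValuationRing A]
    [IsAdicComplete (IsLocalRing.maximalIdeal A) A] [Finite (IsLocalRing.ResidueField A)]
    [Field E] [Algebra A E] [IsFractionRing A E] [Field k] [CharZero k] [Algebra k E]
    [FiniteDimensional k E] [IsGalois k E] (ℓ : ℕ) [Fact ℓ.Prime] (j : ℕ)
    (hj : 1 ≤ j) (g : A[X]) (hℓ : IsUnit (ℓ : A)) (hg : GoodPolynomial (ℓ ^ j) g)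
    (Ω : Type) [Field Ω] [Algebra k Ω] [Algebra E Ω] [IsScalarTower k E Ω] [IsAlgClosed Ω]
    (t x y : Ω) (hx : Transcendental E x)
    (halg : Algebra.IsAlgebraic (IntermediateField.adjoin E {x}) Ω)
    (ht : t ^ (ℓ ^ j) = x) (hy : y ^ ℓ = aeval x (g.map (algebraMap A E)))
    (F : IntermediateField k Ω) (hxF : x ∈ IntermediateField.adjoin E (F : Set Ω))
    (hF : IntermediateField.adjoin E (F : Set Ω) ≤ proEll ℓ (IntermediateField.adjoin E {t, y}))
    (hst1 : GaloisOver (proEll ℓ (IntermediateField.adjoin E {t, y})) F)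
    (hst2 : SpecialStable E x (aeval x (g.map (algebraMap A E))) F) :
    Sections A ℓ t x (aeval x (g.map (algebraMap A E)))
      (proEll ℓ (IntermediateField.adjoin E {t, y})) F ∧ SectionsDetermined ℓ F := by
  have hcE : CharZero E := charZero_of_injective_algebraMap (algebraMap k E).injective
  have halgF : Algebra.IsAlgebraic F Ω := alg_F F halg hxF
  have hnorm : Normal F Ω := by
    have : IsAlgClosure F Ω := ⟨inferInstance, inferInstance⟩
    exact IsAlgClosure.normal F Ω
  set M := proEll ℓ (IntermediateField.adjoin E {t, y}) with hM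
  set h₀ := aeval x (g.map (algebraMap A E)) with hh₀
  set F₁ := IntermediateField.adjoin E (F : Set Ω) with hF₁
  have hFF₁ : ∀ z ∈ F, z ∈ F₁ := fun z hz => IntermediateField.subset_adjoin _ _ hz
  classical
  refine ⟨fun N hN s => ?_, fun N hN s s' W hW h h' σ z hz =>
    unique ℓ F N hN s s' W hW h h' σ z hz⟩
  have h : ∀ z ∈ F₁, z ∈ N := fun z hz => hN z (hF hz)
  have hEN : ∀ c : E, algebraMap E Ω c ∈ N := fun c => hN _ (M.algebraMap_mem c)
  have hEκ : ∀ c : E, algebraMap E Ω c ∈ algebraicClosure k Ω := by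
    intro c
    rw [mem_algebraicClosure_iff]
    exact (Algebra.IsAlgebraic.isAlgebraic (R := k) c).algebraMap
  have hs : ∀ σ : algebraicClosure k Ω ≃ₐ[k] algebraicClosure k Ω, Fixes E σ →
      ∀ z : N, (z : Ω) ∈ F₁ → s.toHom σ z = z := by
    intro σ hσ z hz
    have h1 : ∀ w ∈ F₁, w ∈ (Pool.Agent.V11235.SL.fixF N (s.toHom σ)).toSubfield := by
      refine Pool.Agent.Y157.PS.adjoin_le_sub (fun c => ?_) (fun w hw => ?_)
      · refine ⟨hEN c, ?_⟩
        apply Subtype.ext
        rw [s.compat σ ⟨algebraMap E Ω c, hEκ c⟩ ⟨algebraMap E Ω c, hEN c⟩ rfl,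
          hσ c ⟨algebraMap E Ω c, hEκ c⟩ rfl]
      · exact ⟨N.algebraMap_mem ⟨w, hw⟩, (s.toHom σ).commutes ⟨w, hw⟩⟩
    obtain ⟨h2, h3⟩ := h1 z hz
    exact h3
  obtain ⟨s', hs'⟩ := Pool.Agent.H71MX.baseChange (h := h) s hs
  set e : N ≃+* overF N F₁ h := overEquiv N F₁ h with he
  have hev : ∀ z : N, ((e z : overF N F₁ h) : Ω) = (z : Ω) := fun z => rfl
  obtain ⟨-, hall, -⟩ := MixedRamification.result A E ℓ j hj g hℓ hg Ω t x y hx halg ht hy
  obtain ⟨hdich, hsec⟩ := (hall F₁ hxF hF).1 (overF N F₁ h) hN s'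
  -- extension of the automorphisms to `Ω`
  have hlift : ∀ σ, ∃ τ : Ω ≃ₐ[F] Ω, ∀ z : N, τ (z : Ω) = ((s.toHom σ z : N) : Ω) := fun σ =>
    ⟨(s.toHom σ).liftNormal Ω, fun z => (s.toHom σ).liftNormal_commutes Ω z⟩
  have hMs : ∀ σ, ∀ z : N, (z : Ω) ∈ M → ((s.toHom σ z : N) : Ω) ∈ M := by
    intro σ z hz
    obtain ⟨τ, hτ⟩ := hlift σ
    rw [← hτ]
    exact hst1 τ _ hz
  -- descent
  have hdesc : FromSpecialPlace x h₀ M s' → FromSpecialPlace x h₀ (M.restrictScalars k) s := by
    rintro ⟨W', hPW, hWr, hWd, hWu⟩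
    have hin : ∀ (W : ValuationSubring (overF N F₁ h)) (u : Ω), InMax W u →
        InMax (W.comap (e : N →+* overF N F₁ h)) u := by
      rintro W u ⟨z, hz, rfl⟩
      refine ⟨e.symm z, (comap_non' e W _).2 ?_, rfl⟩
      rw [e.apply_symm_apply]
      exact hz
    have hin' : ∀ (W : ValuationSubring N) (u : Ω), InMax W u →
        InMax (W.comap (e.symm : overF N F₁ h →+* N)) u := by
      rintro W u ⟨z, hz, rfl⟩
      refine ⟨e z, (comap_non' e.symm W _).2 ?_, rfl⟩
      rw [e.symm_apply_apply]
      exact hz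
    refine Pool.Agent.H71MX.descent hFF₁ e hev M hF hN s s' hMs
      (fun σ' => ⟨galIncl k E Ω σ', fixes_galIncl σ', fun z => by rw [hs']; rfl⟩)
      (fun σ hσ => ?_) (AboveSpecial x h₀) (AboveSpecial x h₀)
      (fun W' => AboveSpecial x h₀ W' ∧
        ∀ c : E, algebraMap F₁ (overF N F₁ h) (algebraMap E F₁ c) ∈ W') (AboveSpecial x h₀)
      (fun W hW => hW.1.imp (hin W _) (Or.imp (hin W _) (hin W _)))
      (fun W hW σ => ?_) (fun W hW => hW.imp (hin' W _) (Or.imp (hin' W _) (hin' W _)))
      ⟨W', ⟨hPW, hWr.1⟩, hWr, hWd, hWu⟩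
    · obtain ⟨σ', rfl⟩ := Pool.Agent.H71MX.galIncl_surj σ hσ
      exact ⟨σ', fun z => by rw [hs']; rfl⟩
    · obtain ⟨τ, hτ⟩ := hlift σ
      obtain ⟨V, hV⟩ := Pool.Agent.Y157.PS.a_extv N Ω (W.comap (e : N →+* overF N F₁ h))
      have hnon : ∀ w : N, w ∈ (W.comap (e : N →+* overF N F₁ h)).nonunits ↔
          (w : Ω) ∈ V.nonunits := by
        intro w
        rw [← hV, non_incl]
        rfl
      have hup : ∀ u : Ω, InMax W u → u ∈ V.nonunits := by
        rintro u hu
        obtain ⟨z, hz, rfl⟩ := hin W u hu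
        exact (hnon z).1 hz
      have hdown : ∀ (u : Ω) (hu : u ∈ N), u ∈ (V.comap ((τ : Ω ≃+* Ω) : Ω →+* Ω)).nonunits →
          InMax ((W.comap (e : N →+* overF N F₁ h)).comap
            (((s.toHom σ : N ≃ₐ[F] N) : N ≃+* N).toRingHom.comp
              (e.symm : overF N F₁ h →+* N))) u := by
        intro u hu hun
        rw [non_incl] at hun
        refine ⟨e ⟨u, hu⟩, ?_, rfl⟩
        rw [non_incl, hnon]
        have h1 : ((((((s.toHom σ : N ≃ₐ[F] N) : N ≃+* N).toRingHom.comp
            (e.symm : overF N F₁ h →+* N)) (e ⟨u, hu⟩) : N)) : Ω) = τ u := by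
          change ((s.toHom σ (e.symm (e ⟨u, hu⟩)) : N) : Ω) = τ u
          rw [e.symm_apply_apply]
          exact (hτ ⟨u, hu⟩).symm
        rw [h1]
        exact hun
      have hxN : x ∈ N := h x hxF
      have hhN : h₀ ∈ N := by
        have h1 : h₀ ∈ F₁ := by
          have h9 := aeval_algebraMap_apply Ω (⟨x, hxF⟩ : F₁) (g.map (algebraMap A E))
          rw [hh₀]
          refine Eq.mpr ?_ (Subtype.coe_prop (aeval (⟨x, hxF⟩ : F₁) (g.map (algebraMap A E))))
          exact congrArg (fun w => w ∈ F₁) h9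
        exact h _ h1
      have hEV : ∀ c : E, algebraMap E Ω c ∈ V := by
        intro c
        have h1 : (⟨algebraMap E Ω c, hEN c⟩ : N) ∈ V.comap (algebraMap N Ω) := by
          rw [hV, ValuationSubring.mem_comap]
          exact hW.2 c
        exact h1
      have hsp := hst2 τ V hEV (hW.1.imp (hup _) (Or.imp (hup _) (hup _)))
      exact hsp.imp (hdown _ hxN) (Or.imp (hdown _ (inv_mem hxN)) (hdown _ hhN))
  refine ⟨?_, ?_⟩
  · rcases hdich with hU | hS
    · left
      intro O hO σ hfix hσ z hz hzO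
      obtain ⟨σ', rfl⟩ := Pool.Agent.H71MX.galIncl_surj σ hfix
      have h1 := hU O (gauss_conv' (k := k) hO) σ' (fun c _ hc =>
        hσ ((closureEquiv k E Ω).symm c) trivial hc) (e z) hz hzO
      rw [hs'] at h1
      exact h1
    · exact Or.inr (hdesc hS)
  · rintro (hB | ⟨r, p, c, z, hp, hc, hzM, hfix, hz⟩)
    · exact hdesc (hsec (Or.inl hB))
    · refine hdesc (hsec (Or.inr ⟨r, p, c, e z, hp, hc, hzM, fun σ' => ?_, hz⟩))
      rw [hs', hfix _ (fixes_galIncl σ')]

/-- the field `E F` for `F = k(S)` -/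
lemma adjoin_adjoin_eq {k E Ω : Type} [Field k] [Field E] [Field Ω] [Algebra k E] [Algebra k Ω]
    [Algebra E Ω] [IsScalarTower k E Ω] (S : Set Ω) :
    IntermediateField.adjoin E (IntermediateField.adjoin k S : Set Ω) =
      IntermediateField.adjoin E S := by
  have hS : ∀ w ∈ S, w ∈ IntermediateField.adjoin E S := fun w hw =>
    IntermediateField.subset_adjoin E S hw
  have hS' : ∀ w ∈ S, w ∈ IntermediateField.adjoin k S := fun w hw =>
    IntermediateField.subset_adjoin k S hw
  have h1 : ∀ w ∈ IntermediateField.adjoin k S, w ∈ (IntermediateField.adjoin E S).toSubfield := by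
    refine Pool.Agent.Y157.PS.adjoin_le_sub (fun c => ?_) hS
    have h2 : algebraMap k Ω c = algebraMap E Ω (algebraMap k E c) :=
      IsScalarTower.algebraMap_apply k E Ω c
    rw [h2]
    exact (IntermediateField.adjoin E S).algebraMap_mem _
  refine le_antisymm ?_ ?_
  · rw [IntermediateField.adjoin_le_iff]
    exact h1
  · exact IntermediateField.adjoin.mono E _ _ hS'

/-- the field `E F` is finitely generated -/
lemma fg_adjoin {k E Ω : Type} [Field k] [Field E] [Field Ω] [Algebra k E] [Algebra k Ω]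
    [Algebra E Ω] [IsScalarTower k E Ω] (F : IntermediateField k Ω) (hF : F.FG) :
    (IntermediateField.adjoin E (F : Set Ω)).FG := by
  obtain ⟨S, rfl⟩ := hF
  exact ⟨S, (adjoin_adjoin_eq (S : Set Ω)).symm⟩

/-- the field `E k(u, w)` -/
lemma adjoin_scaled {k E Ω : Type} [Field k] [Field E] [Field Ω] [Algebra k E] [Algebra k Ω]
    [Algebra E Ω] [IsScalarTower k E Ω] (β : E) (hβ : β ≠ 0) (x u w : Ω)
    (hu : u = algebraMap E Ω β * x) :
    IntermediateField.adjoin E (IntermediateField.adjoin k {u, w} : Set Ω) =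
      IntermediateField.adjoin E {x, w} := by
  have hβΩ : algebraMap E Ω β ≠ 0 := (_root_.map_ne_zero _).2 hβ
  rw [adjoin_adjoin_eq]
  have hx1 : x ∈ IntermediateField.adjoin E {x, w} :=
    IntermediateField.subset_adjoin E {x, w} (Set.mem_insert _ _)
  have hw1 : w ∈ IntermediateField.adjoin E {x, w} :=
    IntermediateField.subset_adjoin E {x, w} (Set.mem_insert_of_mem _ rfl)
  have hu2 : u ∈ IntermediateField.adjoin E {u, w} :=
    IntermediateField.subset_adjoin E {u, w} (Set.mem_insert _ _)
  have hw2 : w ∈ IntermediateField.adjoin E {u, w} :=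
    IntermediateField.subset_adjoin E {u, w} (Set.mem_insert_of_mem _ rfl)
  refine le_antisymm ?_ ?_
  · rw [IntermediateField.adjoin_le_iff]
    rintro v (rfl | rfl)
    · rw [SetLike.mem_coe, hu]
      exact mul_mem (IntermediateField.algebraMap_mem _ β) hx1
    · exact hw1
  · rw [IntermediateField.adjoin_le_iff]
    rintro v (rfl | rfl)
    · have h1 : v = algebraMap E Ω β⁻¹ * u := by
        rw [hu, map_inv₀, ← mul_assoc, inv_mul_cancel₀ hβΩ, one_mul]
      rw [SetLike.mem_coe, h1]
      exact mul_mem (IntermediateField.algebraMap_mem _ _) hu2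
    · exact hw2

/-- Let `E/k` be a finite Galois extension of fields of characteristic zero, `A` a complete discrete
valuation ring with finite residue field and with field of fractions `E`, `ℓ` a prime number
invertible in `A`, `m = ℓ^j` with `j ≥ 1`, and `g ∈ A[x]` a polynomial with invertible leading
coefficient such that `g(x^m)` has separable reduction and degree at least 3.  Let `Ω` be an algebraic
closure of `E(x)`, `t, y ∈ Ω` with `t^m = x` and `y^ℓ = g(x)`, and let `M = proEll ℓ E(t, y)` be the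
maximal unramified pro-`ℓ` extension of `k̄(t, y)`.

1. Let `F ⊇ k` be a subfield of `Ω` with `x ∈ E F ⊆ M` that is admissible, see `Admissible`.
(a) For all extensions `N ⊇ M` of `F`, every section of `Gal(N/F) → G_k` is unramified on `M` over `E`, or
it induces on `M` the section of exactly one special place, and this is `k`-rational; the second case
holds if `E F` has bad reduction over `E`, or if `s` fixes an element as in `FixesTwist`.  (b) If `F` is
finitely generated over `k` and `M` is unramified over `k̄ F`, then `M` is the maximal unramified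
pro-`ℓ` extension of `k̄ F`.  (c) Two sections of `Gal(N/F) → G_k`, `N ⊇ proEll ℓ F`, with images in the
decomposition group of the same `W` on `proEll ℓ F` agree on `proEll ℓ F`.

2. Let `g₀ ∈ k[X]`, `g₀(β X) = c₁ g(X)` with `β, c₁ ∈ E*`, and let `u = β x` and
`c w^m = u^a g₀(u)^(b m / ℓ)`, where `c ∈ k*` and `a`, `b` and `a + b deg(g) m / ℓ` are not divisible by
`ℓ`.  Then `M` is the maximal unramified pro-`ℓ` extension of `k̄(u, w)`.  If the valuation of
`c / (β^a c₁^(b m / ℓ)) ∈ E` is not divisible by `m`, then every section of `Gal(N/k(u, w)) → G_k`,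
`N ⊇ M`, induces on `M` the section of exactly one special place, and this is `k`-rational. -/
theorem result (A E k : Type) [CommRing A] [IsDomain A] [IsDiscreteValuationRing A]
    [IsAdicComplete (IsLocalRing.maximalIdeal A) A] [Finite (IsLocalRing.ResidueField A)]
    [Field E] [Algebra A E] [IsFractionRing A E] [Field k] [CharZero k] [Algebra k E]
    [FiniteDimensional k E] [IsGalois k E] (ℓ : ℕ) [Fact ℓ.Prime] (j : ℕ)
    (hj : 1 ≤ j) (g : A[X]) (hℓ : IsUnit (ℓ : A)) (hg : GoodPolynomial (ℓ ^ j) g)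
    (Ω : Type) [Field Ω] [Algebra k Ω] [Algebra E Ω] [IsScalarTower k E Ω] [IsAlgClosed Ω]
    (t x y : Ω) (hx : Transcendental E x)
    (halg : Algebra.IsAlgebraic (IntermediateField.adjoin E {x}) Ω)
    (ht : t ^ (ℓ ^ j) = x) (hy : y ^ ℓ = aeval x (g.map (algebraMap A E))) :
    (∀ F : IntermediateField k Ω, x ∈ IntermediateField.adjoin E (F : Set Ω) →
      IntermediateField.adjoin E (F : Set Ω) ≤ proEll ℓ (IntermediateField.adjoin E {t, y}) →
      Admissible x (aeval x (g.map (algebraMap A E)))
        (proEll ℓ (IntermediateField.adjoin E {t, y})) F →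
      Sections A ℓ t x (aeval x (g.map (algebraMap A E)))
        (proEll ℓ (IntermediateField.adjoin E {t, y})) F ∧
      (F.FG → UnramifiedOver (geom F)
          ((proEll ℓ (IntermediateField.adjoin E {t, y})).restrictScalars k) →
        proEll ℓ F = (proEll ℓ (IntermediateField.adjoin E {t, y})).restrictScalars k) ∧
      SectionsDetermined ℓ F) ∧
    SectionsOfCurves A k ℓ j g x (proEll ℓ (IntermediateField.adjoin E {t, y})) := by
  have hcE : CharZero E := charZero_of_injective_algebraMap (algebraMap k E).injective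
  obtain ⟨-, hall, hcur⟩ := MixedRamification.result A E ℓ j hj g hℓ hg Ω t x y hx halg ht hy
  have hp := (Fact.out : ℓ.Prime).pos
  have hm : 0 < ℓ ^ j := pow_pos hp j
  have hinj : Function.Injective (algebraMap A E) := IsFractionRing.injective A E
  have hx0 : x ≠ 0 := fun h => hx (by rw [h]; exact isAlgebraic_zero)
  have hg0 : g.map (algebraMap A E) ≠ 0 := by
    refine (Polynomial.map_ne_zero_iff hinj).2 ?_
    rintro rfl
    have := hg.1
    rw [leadingCoeff_zero] at this
    exact not_isUnit_zero this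
  have hgx : aeval x (g.map (algebraMap A E)) ≠ 0 := fun h => hx ⟨_, hg0, h⟩
  have hclo : ∀ F : IntermediateField k Ω, x ∈ IntermediateField.adjoin E (F : Set Ω) →
      IntermediateField.adjoin E (F : Set Ω) ≤ proEll ℓ (IntermediateField.adjoin E {t, y}) →
      F.FG → UnramifiedOver (geom F)
          ((proEll ℓ (IntermediateField.adjoin E {t, y})).restrictScalars k) →
        proEll ℓ F = (proEll ℓ (IntermediateField.adjoin E {t, y})).restrictScalars k := by
    intro F hxF hF hFG hun
    have h1 := (hall _ hxF hF).2.1 (fg_adjoin F hFG) (fun W hW z hz hz0 => by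
      obtain ⟨r, hr, h2⟩ := hun W (fun c => by
        rw [IsScalarTower.algebraMap_apply k E Ω]
        exact hW _) z hz hz0
      exact ⟨r, (Pool.Agent.H71MX.geom_adjoin F r).2 hr, h2⟩)
    rw [← h1]
    exact SetLike.ext fun z => (Pool.Agent.H71MX.proEll_adjoin (E := E) F z).symm
  have hmain : ∀ F : IntermediateField k Ω, x ∈ IntermediateField.adjoin E (F : Set Ω) →
      IntermediateField.adjoin E (F : Set Ω) ≤ proEll ℓ (IntermediateField.adjoin E {t, y}) →
      Admissible x (aeval x (g.map (algebraMap A E)))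
        (proEll ℓ (IntermediateField.adjoin E {t, y})) F →
      Sections A ℓ t x (aeval x (g.map (algebraMap A E)))
        (proEll ℓ (IntermediateField.adjoin E {t, y})) F ∧ SectionsDetermined ℓ F := by
    rintro F hxF hF (⟨hsp, hG | ⟨hFG, hun⟩⟩ | ⟨β, c, hβ, hc, hβF, hcF⟩)
    · exact core A E k ℓ j hj g hℓ hg Ω t x y hx halg ht hy F hxF hF hG hsp
    · refine core A E k ℓ j hj g hℓ hg Ω t x y hx halg ht hy F hxF hF (fun τ z hz => ?_) hsp
      have h1 := hclo F hxF hF hFG hun
      have h2 : z ∈ proEll ℓ F := by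
        rw [h1]
        exact hz
      have h3 := Pool.Agent.H71MX.proEll_stable F τ h2
      rw [h1] at h3
      exact h3
    · obtain ⟨hG, hsp⟩ := stable_scaled (E := E) hm ht hy hx0 hgx β c hβ hc hβF hcF
      exact core A E k ℓ j hj g hℓ hg Ω t x y hx halg ht hy F hxF hF hG hsp
  refine ⟨fun F hxF hF hadm => ⟨(hmain F hxF hF hadm).1, hclo F hxF hF,
    (hmain F hxF hF hadm).2⟩, ?_⟩
  intro β c₁ g₀ hβ hc₁ hg₀ a b c u w ha hb hab hc hu hw
  have hβΩ : algebraMap E Ω β ≠ 0 := (_root_.map_ne_zero _).2 hβ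
  have hc₁Ω : algebraMap E Ω c₁ ≠ 0 := (_root_.map_ne_zero _).2 hc₁
  have hgu : aeval u g₀ = algebraMap E Ω c₁ * aeval x (g.map (algebraMap A E)) := by
    have h1 := congrArg (aeval x) hg₀
    rw [aeval_comp, map_mul, map_mul, aeval_C, aeval_C, aeval_X, ← hu, aeval_map_algebraMap] at h1
    exact h1
  set c' : E := algebraMap k E c / (β ^ a * c₁ ^ (b * ℓ ^ (j - 1))) with hc'
  have hc'0 : c' ≠ 0 := div_ne_zero ((_root_.map_ne_zero _).2 hc)
    (mul_ne_zero (pow_ne_zero _ hβ) (pow_ne_zero _ hc₁))
  have hw' : algebraMap E Ω c' * w ^ (ℓ ^ j) =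
      x ^ a * aeval x (g.map (algebraMap A E)) ^ (b * ℓ ^ (j - 1)) := by
    rw [hc', map_div₀, ← IsScalarTower.algebraMap_apply, map_mul, map_pow, map_pow,
      div_mul_eq_mul_div, hw, hgu, hu, div_eq_iff (mul_ne_zero (pow_ne_zero _ hβΩ)
        (pow_ne_zero _ hc₁Ω))]
    ring
  obtain ⟨hpro, -⟩ := hcur a b c' w ha hb hab hc'0 hw'
  have hadj := adjoin_scaled (k := k) β hβ x u w hu
  have hxF : x ∈ IntermediateField.adjoin E (IntermediateField.adjoin k {u, w} : Set Ω) := by
    rw [hadj]
    exact IntermediateField.subset_adjoin _ _ (by simp)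
  have hF : IntermediateField.adjoin E (IntermediateField.adjoin k {u, w} : Set Ω) ≤
      proEll ℓ (IntermediateField.adjoin E {t, y}) := by
    rw [hadj, ← hpro]
    exact fun z hz => geom_le_proEll _
      ((le_sup_left : IntermediateField.adjoin E {x, w} ≤ geom (IntermediateField.adjoin E {x, w}))
        hz)
  have huF : u ∈ IntermediateField.adjoin k {u, w} :=
    IntermediateField.subset_adjoin _ _ (by simp)
  have hwF : w ∈ IntermediateField.adjoin k {u, w} :=
    IntermediateField.subset_adjoin _ _ (by simp)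
  have hguF : aeval u g₀ ∈ IntermediateField.adjoin k {u, w} := by
    have h9 := aeval_algebraMap_apply Ω (⟨u, huF⟩ : IntermediateField.adjoin k {u, w}) g₀
    refine Eq.mpr ?_ (Subtype.coe_prop (aeval (⟨u, huF⟩ : IntermediateField.adjoin k {u, w}) g₀))
    exact congrArg (fun w' => w' ∈ IntermediateField.adjoin k {u, w}) h9
  refine ⟨?_, fun hcv N hN s => ?_⟩
  · rw [← hpro, ← hadj]
    exact SetLike.ext fun z => (Pool.Agent.H71MX.proEll_adjoin (E := E) _ z).symm
  · refine ((hmain _ hxF hF (Or.inr ⟨β, c₁, hβ, hc₁, by rw [← hu]; exact huF,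
      by rw [← hgu]; exact hguF⟩)).1 N hN s).2 (Or.inr ?_)
    refine ⟨j, X ^ (ℓ ^ j * a) * (expand A (ℓ ^ j) g) ^ (b * ℓ ^ (j - 1)), c',
      algebraMap _ N (⟨w, hwF⟩ : IntermediateField.adjoin k {u, w}), ?_, hcv,
      hF (IntermediateField.subset_adjoin _ _ hwF), fun σ _ => (s.toHom σ).commutes _, ?_⟩
    · rw [leadingCoeff_mul, leadingCoeff_X_pow, one_mul, leadingCoeff_pow, leadingCoeff_expand hm]
      exact hg.1.pow _
    · refine hw'.trans ?_
      rw [Polynomial.map_mul, Polynomial.map_pow, Polynomial.map_pow, map_X, map_expand, map_mul,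
        map_pow, map_pow, aeval_X, expand_aeval, pow_mul t (ℓ ^ j) a, ht]

end Pool.Agent.Results.MP_c385f6_ag.GaloisDescent
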