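import Pool.Agent.H71MX.Main2
import Pool.Agent.H71MX.Gauss
import Pool.Agent.H71MX.Crit
import Pool.Agent.H71MX.Clo
import Pool.Agent.H71MX.Unr
import Pool.Agent.H59.SCT.Unq

/-!
# Sections of coverings of the line with ramification indices `m` above `0, ∞` and `ℓ` elsewhere

Let `k` be a finite extension of `ℚ_p`, or any complete discretely valued field of characteristic
zero with finite residue field, let `A` be its valuation ring, let `ℓ` be a prime number which is
invertible in `A`, `m = ℓ^j` with `j ≥ 1`, and let `g ∈ A[x]` be a polynomial with invertible leading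
coefficient such that the reduction of `g(x^m)` is separable and its degree is at least 3.  For
instance, `g = x - 1` and `m ≥ 3`; then the branch points below are `0, 1, ∞`.

We consider all curves `C` over `k` with a branched covering `x : C → ℙ¹`, not necessarily Galois, such
that the Galois closure of `C → ℙ¹` over `k̄` has a Galois group of `ℓ`-power order, and which are
ramified only above `0`, `∞` and the roots of `g`; all ramification indices above `0` and `∞` are
equal to `m`, and those above the roots of `g` are equal to `ℓ`.  Let `F ⊇ k(x)` be the function field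
of `C`, and let `M` be the maximal pro-`ℓ` extension of `k̄ F` that is unramified over `C`, so that
`Gal(M/F)` is the geometrically pro-`ℓ` fundamental group of `C`.  Then `M` is the maximal unramified
pro-`ℓ` extension of `k̄(t, y)`, where `t^m = x` and `y^ℓ = g(x)`.

**Theorem.**
* Every section `s` of `Gal(M/F) → G_k` is unramified, that is, for all `σ` in the inertia group of
  `k` the automorphism `s(σ)` acts trivially on the residue field of the Gauss valuation of `M`, or it
  is the section of exactly one point of `C` above `0`, `∞` or a root of `g`, and this is a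
  `k`-rational point of `C`.
* If `C` has bad reduction over `k` (the inertia group of `k` acts non-trivially on the function field
  of the good reduction that `C` has over an extension of `k`), then all sections are of the second
  kind.
* The section `s` is of the second kind if it fixes some `z ∈ M` with `c z^(ℓ^r) = h(t)`, where the
  leading coefficient of `h ∈ A[x]` is invertible and the valuation of `c ∈ k` is not divisible by
  `ℓ^r`.
* Let `C` be the curve `c w^m = x^a g(x)^(b m / ℓ)`, where `a`, `b` and `a + b deg(g) m / ℓ` are not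
  divisible by `ℓ`.  This is an example, and if the valuation of `c` is not divisible by `m`, then all
  sections are of the second kind: every section of the geometrically pro-`ℓ` fundamental group of `C`,
  and of `π₁(C)`, comes from a rational point.  For instance, for `m = ℓ` and `g = x - 1` these are
  all twists `c w^ℓ = x^a (x - 1)^b` of the quotients of the Fermat curve of exponent `ℓ ≥ 3`, and
  for `m = ℓ^j` the curves `c w^(ℓ^j) = x^a (x - 1)^(b ℓ^(j-1))`.

The theorem is stated for all fields `k(x) ⊆ F ⊆ M`, for instance for `F = k(x)`, for which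
`Gal(M/F)` is the geometrically pro-`ℓ` orbifold fundamental group of `ℙ¹` with the indices `m, m` at
`0, ∞` and `ℓ` at the roots of `g`, and for all extensions `N ⊇ M` of `F`.  If `F` is finitely
generated over `k` and `M/k̄ F` is unramified, then `M` is the maximal unramified pro-`ℓ` extension of
`k̄ F`.

The earlier results of this kind are on coverings of the `x`-line all of whose ramification indices
are `ℓ` and whose number of geometric branch points is divisible by `ℓ`, namely
`MP_c385f6_ag.EllMonodromyCovers` (branch points: the roots of `f ∈ A[x]` with separable reduction)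
and `MP_c385f6_ag.TwistedEllCoverings` (branch points: the roots of `g(a x^m)`, where the valuation of
`a` is not divisible by `m`).  They do not contain, for example, coverings with three branch points
and `ℓ ≥ 5`, or the case `j ≥ 2`.  In the present result the coordinate `t` is not in `F`; the
twisted form `t / δ` of it that is fixed by `s` depends on the section, and both kinds of twists occur
for the sections of the same curve: the inertia group acts on the reduction through rotations
`t ↦ ζ t` for some sections, and trivially on `t` for others.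

Proof.  Let `s` be a section of `Gal(N/F) → G_k`.  As `s(σ)` fixes `x = t^m`, it maps `t` to an `m`-th
root of unity times `t`.  By Hilbert's theorem 90 there are `δ ∈ k̄` and `a = δ^m ∈ k` such that all
`s(σ)` fix `t' = t / δ`, and `x = a t'^m`.  So `s` is also a section for `F(t') ⊆ M`.  If the valuation
of `a` is not divisible by `m`, then `MP_c385f6_ag.TwistedEllCoverings` (library
`Pool.Agent.H59.SCT`) for `F(t')`, the coordinate `t'` and `g(a t'^m)` shows that `s` is of the second
kind, and `W` is above `t' = 0` or `t' = ∞`.  Otherwise, after multiplication of `t'` by an element of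
`k`, `a` is a unit of `A`; then `s` fixes `y' = y / δ'` with `d y'^ℓ = f(t')`, `f(t') = g(a t'^m)`, where
`f` has separable reduction.  If the valuation of `d` is divisible by `ℓ`, we may assume that `d` is a
unit, and then all `s(σ)`, `σ` in the inertia group, fix `Y ∈ M`, `Y^ℓ = ∏ (t' - e)` over the roots
of `f`.  The arguments of `MP_c385f6_ag.EllMonodromyCovers` show that `s` is unramified: the element of
`Gal(M/k̄(t'))` that acts as `s(τ)` on the residue field, `τ` a generator of the tame inertia group,
is of finite order and fixes `Y`, hence trivial.  If the valuation of `d` is not divisible by `ℓ`, then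
`s` is the section of exactly one place above the roots of `f`, by the same result for `k(t', y')` and
its extension `F(t', y')`.  Then `s` fixes no place `W'` above `t' = 0`: as `s` fixes `y'` and `W'`, the
residue of `y'` would be an element `e ∈ k` with `d e^ℓ = f(0)`, a unit of `A`; and similarly for
`t' = ∞` with `y' t'^(-deg f / ℓ)`.  If an unramified section fixes `z` with `c z^(ℓ^r) = h(t)`, then
`δ₁ z`, `δ₁^(ℓ^r) = c`, is a unit for the Gauss valuation, whence `σ(δ₁) = δ₁` for all `σ` in the
inertia group, and the valuation of `c` is divisible by `ℓ^r`.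

For the last statements, `z ∈ Ω` is in `M` if and only if `σ^(ℓ^n)` fixes all conjugates of `z` over
`k̄(x)`, for some `n` and all `σ`, and `z` can be approximated by elements of `k̄(t, y)` at all valuation
rings over `k`.  If `M/k̄F` is unramified, then it is the same to approximate by elements of `k̄F`.
For `F = k(x, w)` a uniformiser of `k̄(t, y)` at a place is `t - t₀`, `1/t` or `y`, and it has the same
value as a monomial in `x - x₀` and `w`.
-/

set_option autoImplicit false

open Polynomial

namespace Pool.Agent.Results.MP_c385f6_ag.MixedRamification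

open Pool.Agent.H59.SCT
open EllMonodromyCovers (IsGauss ActsTrivially GaussUnique)

section definitions

/-- The leading coefficient of `g` is invertible, the reduction of `g(x^m)` is separable, and the
degree of `g(x^m)` is at least 3. -/
def GoodPolynomial {A : Type} [CommRing A] [IsLocalRing A] (m : ℕ) (g : A[X]) : Prop :=
  IsUnit g.leadingCoeff ∧ ((expand A m g).map (IsLocalRing.residue A)).Separable ∧
    3 ≤ (expand A m g).natDegree

/-- The valuation of `a` is not divisible by `m`: `a = u ϖ^n` with `u` invertible in `A`, `ϖ` a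
uniformiser and `n` not divisible by `m`. -/
def ValuationNotDivisible (A : Type) {k : Type} [CommRing A] [Field k] [Algebra A k] (m : ℕ) (a : k) :
    Prop :=
  ∃ (ϖ u : A) (n : ℤ), Irreducible ϖ ∧ IsUnit u ∧ ¬ (m : ℤ) ∣ n ∧
    a = algebraMap A k u * algebraMap A k ϖ ^ n

variable {k Ω : Type} [Field k] [Field Ω] [Algebra k Ω] {F : IntermediateField k Ω}
  {N : IntermediateField F Ω}

/-- The element `u` of `Ω` is in the maximal ideal of the valuation ring `W` of `N`. -/
def InMax (W : ValuationSubring N) (u : Ω) : Prop := ∃ z ∈ W.nonunits, (z : Ω) = u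

/-- The valuation ring `W` is special: it is above `x = 0`, `x = ∞` or a zero of `h`. -/
def AboveSpecial (x h : Ω) (W : ValuationSubring N) : Prop :=
  InMax W x ∨ InMax W x⁻¹ ∨ InMax W h

/-- The section `s` induces on `M` the section of exactly one place above `x = 0`, `x = ∞` or a zero
of `h`, and this place is `k`-rational. -/
def FromSpecialPlace (x h : Ω) (M : IntermediateField k Ω) (s : Splitting F N) : Prop :=
  FromOneRationalPlace M s (AboveSpecial x h) (AboveSpecial x h)

/-- The section `s`, restricted to `M`, is unramified: if the valuation ring `O` of `Ω` induces the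
Gauss valuation on `k̄(t)`, then for all `σ ∈ Gal(k̄/k)` which act trivially on the residue field of
`O ∩ k̄`, the automorphism `s(σ)` acts trivially on the residue field of `O ∩ M`. -/
def IsUnramified (A : Type) [CommRing A] [IsLocalRing A] [Algebra A k] (t : Ω)
    (M : IntermediateField k Ω) (s : Splitting F N) : Prop :=
  ∀ O : ValuationSubring Ω, IsGauss A k (algebraicClosure k Ω) t O →
    ∀ σ : algebraicClosure k Ω ≃ₐ[k] algebraicClosure k Ω, ActsTrivially O Set.univ σ →
      ActsTrivially O (M : Set Ω) (s.toHom σ)

/-- The curve with function field `F` has bad reduction: if `O` induces the Gauss valuation on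
`k̄(t)`, some automorphism of `Ω` over `F` that acts trivially on the residue field of `O ∩ k̄` acts
non-trivially on the residue field of `O ∩ k̄ F`. -/
def BadReduction (A : Type) [CommRing A] [IsLocalRing A] [Algebra A k] (t : Ω)
    (F : IntermediateField k Ω) : Prop :=
  ∃ O : ValuationSubring Ω, IsGauss A k (algebraicClosure k Ω) t O ∧
    ∃ τ : Ω ≃ₐ[F] Ω, ActsTrivially O (algebraicClosure k Ω : Set Ω) τ ∧
      ¬ ActsTrivially O (geom F : Set Ω) τ

/-- `s` fixes an element `z` of `M` with `c z^(ℓ^r) = h(t)`, where the leading coefficient of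
`h ∈ A[X]` is invertible and the valuation of `c ∈ k` is not divisible by `ℓ^r`. -/
def FixesTwist (A : Type) [CommRing A] [Algebra A k] (ℓ : ℕ) (t : Ω) (M : IntermediateField k Ω)
    (s : Splitting F N) : Prop :=
  ∃ (r : ℕ) (h : A[X]) (c : k) (z : N), IsUnit h.leadingCoeff ∧
    ValuationNotDivisible A (ℓ ^ r) c ∧ (z : Ω) ∈ M ∧ (∀ σ, s.toHom σ z = z) ∧
    algebraMap k Ω c * (z : Ω) ^ (ℓ ^ r) = aeval t (h.map (algebraMap A k))

/-- For all extensions `N ⊇ M` of `F`, every section `s` of `Gal(N/F) → G_k` is unramified on `M`, or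
it induces on `M` the section of exactly one special place, and this is `k`-rational.  The second
case holds if `F` has bad reduction, or if `s` fixes an element as in `FixesTwist`. -/
def Sections (A : Type) [CommRing A] [IsLocalRing A] [Algebra A k] (ℓ : ℕ) (t x h : Ω)
    (M F : IntermediateField k Ω) : Prop :=
  ∀ N : IntermediateField F Ω, (∀ z ∈ M, z ∈ N) → ∀ s : Splitting F N,
    (IsUnramified A t M s ∨ FromSpecialPlace x h M s) ∧
    (BadReduction A t F ∨ FixesTwist A ℓ t M s → FromSpecialPlace x h M s)

/-- For all extensions `N ⊇ proEll ℓ F` of `F`, two sections of `Gal(N/F) → G_k` with images in the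
decomposition group of the same `W` on `proEll ℓ F`, where `W` contains `k` and the residue field of
`W ∩ F` is `k`, agree on `proEll ℓ F`. -/
def SectionsDetermined (ℓ : ℕ) (F : IntermediateField k Ω) : Prop :=
  ∀ N : IntermediateField F Ω, (∀ z ∈ proEll ℓ F, z ∈ N) → ∀ (s s' : Splitting F N)
    (W : ValuationSubring N), RationalOver W → InDecomposition (proEll ℓ F) s W →
    InDecomposition (proEll ℓ F) s' W → ∀ σ, ∀ z : N, (z : Ω) ∈ proEll ℓ F →
      s.toHom σ z = s'.toHom σ z

/-- Let `c w^m = x^a g(x)^(b m / ℓ)`, `m = ℓ^j`, where `c ∈ k` is not zero and `a`, `b` and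
`a + b deg(g) m / ℓ` are not divisible by `ℓ`.  Then `M` is the maximal unramified pro-`ℓ` extension of
`k̄(x, w)`.  If the valuation of `c` is not divisible by `m`, then, for all extensions `N ⊇ M` of
`k(x, w)`, every section of `Gal(N/k(x, w)) → G_k` induces on `M` the section of exactly one special
place, and it is `k`-rational. -/
def SectionsOfCurves (A : Type) {k Ω : Type} [CommRing A] [Field k] [Algebra A k] [Field Ω]
    [Algebra k Ω] (ℓ j : ℕ) (g : A[X]) (x : Ω) (M : IntermediateField k Ω) : Prop :=
  ∀ (a b : ℕ) (c : k) (w : Ω), ¬ ℓ ∣ a → ¬ ℓ ∣ b → ¬ ℓ ∣ a + b * g.natDegree * ℓ ^ (j - 1) →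
    c ≠ 0 → algebraMap k Ω c * w ^ (ℓ ^ j) =
      x ^ a * aeval x (g.map (algebraMap A k)) ^ (b * ℓ ^ (j - 1)) →
    proEll ℓ (IntermediateField.adjoin k {x, w}) = M ∧
    (ValuationNotDivisible A (ℓ ^ j) c →
      ∀ N : IntermediateField (IntermediateField.adjoin k {x, w}) Ω, (∀ z ∈ M, z ∈ N) →
        ∀ s : Splitting (IntermediateField.adjoin k {x, w}) N,
          FromSpecialPlace x (aeval x (g.map (algebraMap A k))) M s)

end definitions

section proof

variable {A k : Type} [CommRing A] [IsDomain A] [IsDiscreteValuationRing A]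
    [IsAdicComplete (IsLocalRing.maximalIdeal A) A] [Finite (IsLocalRing.ResidueField A)]
    [Field k] [CharZero k] [Algebra A k] [IsFractionRing A k] {ℓ : ℕ} [Fact ℓ.Prime] {j : ℕ}
    {g : A[X]} {Ω : Type} [Field Ω] [Algebra k Ω] [IsAlgClosed Ω] {t x y : Ω}

omit [CharZero k] [IsAlgClosed Ω] in
lemma inMax_iff {F : IntermediateField k Ω} {N : IntermediateField F Ω} (W : ValuationSubring N)
    (u : Ω) (z : N) (hz : (z : Ω) = u) : InMax W u ↔ z ∈ W.nonunits := by
  constructor
  · rintro ⟨w, hw, hwu⟩
    have h1 : z = w := Subtype.ext (hz.trans hwu.symm)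
    rwa [h1]
  · exact fun h => ⟨z, h, hz⟩

lemma sections (hj : 1 ≤ j) (hℓ : IsUnit (ℓ : A)) (hg : GoodPolynomial (ℓ ^ j) g)
    (hx : Transcendental k x) (halg : Algebra.IsAlgebraic (IntermediateField.adjoin k {x}) Ω)
    (ht : t ^ (ℓ ^ j) = x) (hy : y ^ ℓ = aeval x (g.map (algebraMap A k)))
    (hex : ∃ O : ValuationSubring Ω, IsGauss A k (algebraicClosure k Ω) t O)
    (F : IntermediateField k Ω) (hxF : x ∈ F)
    (hF : F ≤ proEll ℓ (IntermediateField.adjoin k {t, y})) :
    Sections A ℓ t x (aeval x (g.map (algebraMap A k)))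
      (proEll ℓ (IntermediateField.adjoin k {t, y})) F := by
  intro N hN s
  have hκM : ∀ c : algebraicClosure k Ω, (c : Ω) ∈ proEll ℓ (IntermediateField.adjoin k {t, y}) :=
    fun c => geom_le_proEll _ (const_mem_geom _ c)
  have hκ : ∀ c : algebraicClosure k Ω, (c : Ω) ∈ N := fun c => hN _ (hκM c)
  have e1 : ∀ W : ValuationSubring N, InMax W x ↔ algebraMap F N ⟨x, hxF⟩ ∈ W.nonunits :=
    fun W => inMax_iff W x _ rfl
  have e2 : ∀ W : ValuationSubring N, InMax W x⁻¹ ↔ algebraMap F N ⟨x, hxF⟩⁻¹ ∈ W.nonunits :=
    fun W => inMax_iff W x⁻¹ _ rfl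
  have e3 : ∀ W : ValuationSubring N, InMax W (aeval x (g.map (algebraMap A k))) ↔
      algebraMap F N (aeval ⟨x, hxF⟩ (g.map (algebraMap A k))) ∈ W.nonunits := by
    refine fun W => inMax_iff W _ _ ?_
    exact (aeval_algebraMap_apply Ω (⟨x, hxF⟩ : F) (g.map (algebraMap A k))).symm
  have hdich : IsUnramified A t (proEll ℓ (IntermediateField.adjoin k {t, y})) s ∨
      FromSpecialPlace x (aeval x (g.map (algebraMap A k)))
        (proEll ℓ (IntermediateField.adjoin k {t, y})) s := by
    rcases Pool.Agent.H71MX.mixB A k ℓ j hj g hℓ hg Ω F ⟨x, hxF⟩ t y hx halg ht hy hF N hN s with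
      h | h
    · exact Or.inl h
    · right
      have e4 : (fun W : ValuationSubring N => algebraMap F N ⟨x, hxF⟩ ∈ W.nonunits ∨
          algebraMap F N ⟨x, hxF⟩⁻¹ ∈ W.nonunits ∨
          algebraMap F N (aeval ⟨x, hxF⟩ (g.map (algebraMap A k))) ∈ W.nonunits) =
          AboveSpecial x (aeval x (g.map (algebraMap A k))) :=
        funext fun W => propext (or_congr (e1 W).symm (or_congr (e2 W).symm (e3 W).symm))
      rw [e4] at h
      exact h
  refine ⟨hdich, ?_⟩
  rintro (⟨O, hO, τ, hτc, hz⟩ | ⟨r, h, c, z, hh, hc, hzM, hfix, hz⟩)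
  · refine hdich.resolve_left fun hU => hz fun z hzL hzO => ?_
    let τk : Ω ≃ₐ[k] Ω := τ.restrictScalars k
    have hac : IsAlgClosure k (algebraicClosure k Ω) := inferInstance
    have hnor : Normal k (algebraicClosure k Ω) := IsAlgClosure.normal k _
    let σ : algebraicClosure k Ω ≃ₐ[k] algebraicClosure k Ω := τk.restrictNormal _
    have hσ : ∀ c : algebraicClosure k Ω, τ (c : Ω) = (σ c : Ω) := fun c =>
      (AlgEquiv.restrictNormal_commutes τk (algebraicClosure k Ω) c).symm
    have hzg : z ∈ geom F := hzL
    have hzad : z ∈ IntermediateField.adjoin F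
        ((algebraicClosure k Ω : Set Ω) ∪ ((⊥ : IntermediateField F Ω) : Set Ω)) := by
      rw [geom_iff] at hzg
      exact IntermediateField.adjoin.mono _ _ _ Set.subset_union_left hzg
    obtain ⟨hzN, hag⟩ := Pool.Agent.H71SC.agree N ⊥ bot_le hκ s.toHom
      (fun σ c z hz => s.compat σ c z hz)
      (fun σ z hz => by
        obtain ⟨w, hw⟩ := IntermediateField.mem_bot.1 hz
        have h1 : z = algebraMap F N w := Subtype.ext hw.symm
        rw [h1, (s.toHom σ).commutes]) σ τ
      (fun z hz => by
        obtain ⟨w, rfl⟩ := IntermediateField.mem_bot.1 hz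
        exact τ.commutes w) hσ z hzad
    have hgM : geom F ≤ proEll ℓ (IntermediateField.adjoin k {t, y}) :=
      sup_le hF (fun c hc => hκM ⟨c, hc⟩)
    have h5 := hU O hO σ (fun c _ hc => by
      have h6 : τ (c : Ω) - (c : Ω) ∈ O.nonunits := hτc (c : Ω) c.2 hc
      rw [hσ] at h6
      exact h6) ⟨z, hzN⟩ (hgM hzg) hzO
    have h6 : algebraMap N Ω (s.toHom σ ⟨z, hzN⟩ - ⟨z, hzN⟩) = τ z - z := by
      rw [← hag]
      rfl
    rw [h6] at h5
    exact h5
  · refine hdich.resolve_left fun hU => ?_
    obtain ⟨O, hO⟩ := hex
    obtain ⟨ϖ, u, n, hϖ, hu, hn, hcu⟩ := hc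
    exact Pool.Agent.H71MX.crit_pow hℓ t N (proEll ℓ (IntermediateField.adjoin k {t, y})) hN hκM O
      hO s.toHom (fun σ c z hz => s.compat σ c z hz)
      (fun σ hσ z hz hzO => hU O hO σ (fun c _ hc => hσ c hc) z hz hzO) ϖ hϖ r c n hn u hu hcu h hh
      z hzM hfix hz

omit [IsAdicComplete (IsLocalRing.maximalIdeal A) A] [Finite (IsLocalRing.ResidueField A)]
  [CharZero k] [IsAlgClosed Ω] in
/-- the functions `w` with `c w^m = x^a g(x)^(b m / ℓ)` are in `M` -/
lemma mem_curve (hj : 1 ≤ j) (hg : GoodPolynomial (ℓ ^ j) g)
    (hx : Transcendental k x) (ht : t ^ (ℓ ^ j) = x)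
    (hy : y ^ ℓ = aeval x (g.map (algebraMap A k))) (a b : ℕ) (c : k) (hc : c ≠ 0) (w : Ω)
    (hw : algebraMap k Ω c * w ^ (ℓ ^ j) =
      x ^ a * aeval x (g.map (algebraMap A k)) ^ (b * ℓ ^ (j - 1))) :
    IntermediateField.adjoin k {x, w} ≤ proEll ℓ (IntermediateField.adjoin k {t, y}) := by
  have hp := (Fact.out : ℓ.Prime).pos
  have hm : 0 < ℓ ^ j := pow_pos hp j
  have hinj : Function.Injective (algebraMap A k) := IsFractionRing.injective A k
  have hmem : ∀ z ∈ IntermediateField.adjoin k {t, y},
      z ∈ proEll ℓ (IntermediateField.adjoin k {t, y}) := fun z hz =>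
    geom_le_proEll _ ((le_sup_left : _ ≤ geom (IntermediateField.adjoin k {t, y})) hz)
  have htM := hmem t (IntermediateField.subset_adjoin _ _ (by simp))
  have hyM := hmem y (IntermediateField.subset_adjoin _ _ (by simp))
  have hκM : ∀ c : algebraicClosure k Ω, (c : Ω) ∈ proEll ℓ (IntermediateField.adjoin k {t, y}) :=
    fun c => geom_le_proEll _ (const_mem_geom _ c)
  have hx0 : x ≠ 0 := fun h => hx (by rw [h]; exact isAlgebraic_zero)
  have hg0 : g.map (algebraMap A k) ≠ 0 := by
    refine (Polynomial.map_ne_zero_iff hinj).2 ?_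
    rintro rfl
    have := hg.1
    rw [leadingCoeff_zero] at this
    exact not_isUnit_zero this
  have hgx : aeval x (g.map (algebraMap A k)) ≠ 0 := fun h => hx ⟨_, hg0, h⟩
  have hv : (t ^ a * y ^ b) ^ (ℓ ^ j) = algebraMap k Ω c * w ^ (ℓ ^ j) := by
    rw [hw, mul_pow, ← pow_mul, mul_comm a, pow_mul, ht, ← pow_mul, ← hy, ← pow_mul]
    congr 2
    have h1 : ℓ ^ j = ℓ * ℓ ^ (j - 1) := by
      rw [← pow_succ']
      congr 1
      omega
    rw [h1]
    ring
  have hw0 : w ≠ 0 := by
    rintro rfl
    rw [zero_pow hm.ne', mul_zero] at hw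
    exact mul_ne_zero (pow_ne_zero _ hx0) (pow_ne_zero _ hgx) hw.symm
  have hε : (t ^ a * y ^ b / w) ^ (ℓ ^ j) = algebraMap k Ω c := by
    rw [div_pow, hv, mul_div_cancel_right₀ _ (pow_ne_zero _ hw0)]
  have hε0 : t ^ a * y ^ b / w ≠ 0 := by
    intro h
    rw [h, zero_pow hm.ne'] at hε
    exact (_root_.map_ne_zero _).2 hc hε.symm
  have hεκ : t ^ a * y ^ b / w ∈ algebraicClosure k Ω := by
    rw [mem_algebraicClosure_iff]
    have h1 : IsIntegral k (t ^ a * y ^ b / w) := by
      apply IsIntegral.of_pow hm
      rw [hε]
      exact isIntegral_algebraMap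
    exact h1.isAlgebraic
  rw [IntermediateField.adjoin_le_iff]
  rintro z (rfl | rfl)
  · rw [← ht]
    exact pow_mem htM _
  · have h2 : t ^ a * y ^ b ≠ 0 := by
      intro h
      rw [h, zero_div] at hε0
      exact hε0 rfl
    have h3 : ∀ u v : Ω, u ≠ 0 → v ≠ 0 → v = u / (u / v) := by
      intro u v hu hv
      field_simp
    have h1 : z = t ^ a * y ^ b / (t ^ a * y ^ b / z) := h3 _ _ h2 hw0
    rw [SetLike.mem_coe, h1]
    exact div_mem (mul_mem (pow_mem htM _) (pow_mem hyM _)) (hκM ⟨_, hεκ⟩)

omit [IsDiscreteValuationRing A] [IsAdicComplete (IsLocalRing.maximalIdeal A) A]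
  [Finite (IsLocalRing.ResidueField A)] [CharZero k] [IsFractionRing A k] [IsAlgClosed Ω] in
/-- the polynomial `x^a g(x)^b` in terms of `t` -/
lemma fixes_curve (hg : IsUnit g.leadingCoeff) (ht : t ^ (ℓ ^ j) = x)
    (M F : IntermediateField k Ω) (hF : F ≤ M) (a b : ℕ) (c : k)
    (hc : ValuationNotDivisible A (ℓ ^ j) c) (w : Ω) (hwF : w ∈ F)
    (hw : algebraMap k Ω c * w ^ (ℓ ^ j) = x ^ a * aeval x (g.map (algebraMap A k)) ^ b)
    (N : IntermediateField F Ω) (s : Splitting F N) : FixesTwist A ℓ t M s := by
  have hp := (Fact.out : ℓ.Prime).pos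
  have hm : 0 < ℓ ^ j := pow_pos hp j
  refine ⟨j, X ^ (ℓ ^ j * a) * (expand A (ℓ ^ j) g) ^ b, c, algebraMap F N ⟨w, hwF⟩, ?_, hc,
    hF hwF, fun σ => (s.toHom σ).commutes _, ?_⟩
  · rw [leadingCoeff_mul, leadingCoeff_X_pow, one_mul, leadingCoeff_pow, leadingCoeff_expand hm]
    exact hg.pow b
  · refine hw.trans ?_
    rw [Polynomial.map_mul, Polynomial.map_pow, Polynomial.map_pow, map_X, map_expand, map_mul,
      map_pow, map_pow, aeval_X, expand_aeval, pow_mul, ht]

end proof

/-- Let `A` be a complete discrete valuation ring with finite residue field and with field of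
fractions `k` of characteristic zero, `ℓ` a prime number invertible in `A`, `m = ℓ^j` with `j ≥ 1`, and
`g ∈ A[x]` a polynomial with invertible leading coefficient such that `g(x^m)` has separable reduction
and degree at least 3.  Let `Ω` be an algebraic closure of `k(x)`, `t, y ∈ Ω` with `t^m = x` and
`y^ℓ = g(x)`, and let `M = proEll ℓ k(t, y)` be the maximal unramified pro-`ℓ` extension of `k̄(t, y)`.

1. The Gauss valuation of `k̄(t)` has exactly one extension to `M`.

2. Let `k(x) ⊆ F ⊆ M`.  (a) For all extensions `N ⊇ M` of `F`, every section of `Gal(N/F) → G_k` is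
unramified on `M`, or it induces on `M` the section of exactly one special place, and this is
`k`-rational; the second case holds if `F` has bad reduction, or if `s` fixes an element as in
`FixesTwist`.  (b) If `F` is finitely generated over `k` and `M` is unramified over `k̄ F`, then `M` is
the maximal unramified pro-`ℓ` extension of `k̄ F`.  (c) Two sections of `Gal(N/F) → G_k`,
`N ⊇ proEll ℓ F`, with images in the decomposition group of the same `W` on `proEll ℓ F` agree on
`proEll ℓ F`.

3. Let `c w^m = x^a g(x)^(b m / ℓ)`, where `c ∈ k` is not zero and `a`, `b` and `a + b deg(g) m / ℓ` are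
not divisible by `ℓ`.  Then `M` is the maximal unramified pro-`ℓ` extension of `k̄(x, w)`.  If the
valuation of `c` is not divisible by `m`, then every section of `Gal(N/k(x, w)) → G_k`, `N ⊇ M`, induces
on `M` the section of exactly one special place, and this is `k`-rational. -/
theorem result (A k : Type) [CommRing A] [IsDomain A] [IsDiscreteValuationRing A]
    [IsAdicComplete (IsLocalRing.maximalIdeal A) A] [Finite (IsLocalRing.ResidueField A)]
    [Field k] [CharZero k] [Algebra A k] [IsFractionRing A k] (ℓ : ℕ) [Fact ℓ.Prime] (j : ℕ)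
    (hj : 1 ≤ j) (g : A[X]) (hℓ : IsUnit (ℓ : A)) (hg : GoodPolynomial (ℓ ^ j) g)
    (Ω : Type) [Field Ω] [Algebra k Ω] [IsAlgClosed Ω] (t x y : Ω)
    (hx : Transcendental k x) (halg : Algebra.IsAlgebraic (IntermediateField.adjoin k {x}) Ω)
    (ht : t ^ (ℓ ^ j) = x) (hy : y ^ ℓ = aeval x (g.map (algebraMap A k))) :
    GaussUnique A k (algebraicClosure k Ω) t
      (proEll ℓ (IntermediateField.adjoin k {t, y}) : Set Ω) ∧
    (∀ F : IntermediateField k Ω, x ∈ F → F ≤ proEll ℓ (IntermediateField.adjoin k {t, y}) →
      Sections A ℓ t x (aeval x (g.map (algebraMap A k)))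
        (proEll ℓ (IntermediateField.adjoin k {t, y})) F ∧
      (F.FG → UnramifiedOver (geom F) (proEll ℓ (IntermediateField.adjoin k {t, y})) →
        proEll ℓ F = proEll ℓ (IntermediateField.adjoin k {t, y})) ∧
      SectionsDetermined ℓ F) ∧
    SectionsOfCurves A ℓ j g x (proEll ℓ (IntermediateField.adjoin k {t, y})) := by
  have hsep : (expand k (ℓ ^ j) (g.map (algebraMap A k))).Separable := by
    rw [← map_expand]
    refine Pool.Agent.H71MX.good_sep ?_ hg.2.1
    rw [leadingCoeff_expand (pow_pos (Fact.out : ℓ.Prime).pos j)]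
    exact hg.1
  have hinj : Function.Injective (algebraMap A k) := IsFractionRing.injective A k
  have hnd : (expand k (ℓ ^ j) (g.map (algebraMap A k))).natDegree =
      (expand A (ℓ ^ j) g).natDegree := by
    rw [← map_expand, natDegree_map_eq_of_injective hinj]
  have hdvd : ℓ ∣ (expand k (ℓ ^ j) (g.map (algebraMap A k))).natDegree := by
    rw [natDegree_expand]
    exact Dvd.dvd.mul_left (dvd_pow_self ℓ (by omega)) _
  have hpos : 0 < (expand k (ℓ ^ j) (g.map (algebraMap A k))).natDegree := by
    rw [hnd]
    exact lt_of_lt_of_le (by norm_num) hg.2.2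
  have hxt : x ∈ IntermediateField.adjoin k {t} := by
    rw [← ht]
    exact pow_mem (IntermediateField.mem_adjoin_simple_self k _) _
  have htr : Transcendental k t := by
    intro h
    apply hx
    rw [← ht]
    exact h.pow _
  have hgu : GaussUnique A k (algebraicClosure k Ω) t
      (proEll ℓ (IntermediateField.adjoin k {t, y}) : Set Ω) := by
    refine Pool.Agent.H71MX.gaussU A k ℓ _ hℓ (Pool.Agent.H71MX.good_comp hj hg 1 isUnit_one) Ω t y
      htr (alg_over halg _ hxt) ?_
    rw [hy, ← ht, Polynomial.map_comp, aeval_comp]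
    simp
  have hsec := fun F hxF hF => sections hj hℓ hg hx halg ht hy hgu.1 F hxF hF
  have hclo : ∀ F : IntermediateField k Ω, x ∈ F →
      F ≤ proEll ℓ (IntermediateField.adjoin k {t, y}) → F.FG →
      UnramifiedOver (geom F) (proEll ℓ (IntermediateField.adjoin k {t, y})) →
      proEll ℓ F = proEll ℓ (IntermediateField.adjoin k {t, y}) := fun F hxF hF hFG hun =>
    Pool.Agent.H71MX.proEll_mix ht hx halg (g.map (algebraMap A k)) hsep hdvd hpos hy F hxF hFG hF
      hun
  classical
  refine ⟨hgu, fun F hxF hF => ⟨hsec F hxF hF, hclo F hxF hF,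
    fun N hN s s' W hW h h' σ z hz => ?_⟩, fun a b c w ha hb hab hc hw => ?_⟩
  · have := alg_over halg F hxF
    exact unique ℓ F N hN s s' W hW h h' σ z hz
  · have hFM := mem_curve hj hg hx ht hy a b c hc w hw
    have hxF : x ∈ IntermediateField.adjoin k {x, w} :=
      IntermediateField.subset_adjoin _ _ (by simp)
    have hwF : w ∈ IntermediateField.adjoin k {x, w} :=
      IntermediateField.subset_adjoin _ _ (by simp)
    refine ⟨hclo _ hxF hFM ⟨{x, w}, by simp⟩ ?_, fun hcv N hN s => ?_⟩
    · refine Pool.Agent.H71MX.unr_expl hj ht hx halg (g.map (algebraMap A k)) hsep ?_ hy a b ha hb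
        ?_ c hc hw
      · rw [natDegree_expand] at hpos
        exact Nat.pos_of_mul_pos_right hpos
      · rw [natDegree_map_eq_of_injective hinj]
        exact hab
    · exact (hsec _ hxF hFM N hN s).2 (Or.inr (fixes_curve hg.1 ht _ _ hFM a
        (b * ℓ ^ (j - 1)) c hcv w hwF hw N s))

end Pool.Agent.Results.MP_c385f6_ag.MixedRamification
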