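import Pool.Agent.H59.SCT.RotA
import Pool.Agent.H59.SCT.Clo2
import Pool.Agent.H59.SCT.Unq

/-!
# The pro-`ℓ` section conjecture for coverings of the line branched over a twisted divisor

Let `k` be a finite extension of `ℚ_p`, or any complete discretely valued field of characteristic
zero with finite residue field, let `A` be its valuation ring, let `ℓ` be a prime number which is
invertible in `A`, `m = ℓ^j` with `j ≥ 1`, let `g ∈ A[x]` be a polynomial with invertible leading
coefficient such that the reduction of `g(x^m)` is separable and its degree is at least 3, and let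
`a ∈ k` be an element whose valuation is not divisible by `m`.  The roots of `g(a x^m)` are the branch
points; the curve `(ℙ¹, roots)` has potentially good reduction, and the inertia group of `k` acts on
the reduction through rotations `x ↦ ζ x`.

Let `x : C → ℙ¹` be a covering over `k`, `C` smooth, projective and geometrically connected with
function field `F`, such that the Galois group of the Galois closure of `C → ℙ¹` over `k̄` is an
`ℓ`-group, which is unramified outside the roots of `g(a x^m)`, and for which all points of `C` above
these roots have the ramification index `ℓ`.  The examples are the superelliptic curves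
`d y^ℓ = ∏ g_i(a x^m)^{r_i}` with exponents `r_i` prime to `ℓ`, where `g = ∏ g_i` and the degree of the
right hand side is divisible by `ℓ`, and all étale coverings of these curves whose geometric monodromy
group is an `ℓ`-group.

**Theorem.**  Every section `s` of `Gal(M/F) → G_k`, where `M` is the field of the geometrically pro-`ℓ`
fundamental group of `C`, is the section of exactly one point of `C` above `x = 0` or `x = ∞`, and this
is a `k`-rational point of `C`; and the section is determined by the prolongation `W` to `M` of the
valuation of this point.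

The starting result `MP_c385f6_ag.CoveringsOfTwistsByRotations` is the case where `C` is an étale covering
of a curve `d y^ℓ = g(a x^m)`.  The curves `C` above are in general not étale coverings of such a curve,
for example the superelliptic curves with different exponents `r_i`; only a further étale covering of
`C` over `k̄` is an étale covering of the curve `y^ℓ = g(a x^m)` over `k̄`.  The twist `d` is here not given
with the curve, but is attached to the section: different sections can have different `d`.

Here the theorem is stated for all fields `F` with `k(x) ⊆ F ⊆ M`, where `M` is the maximal unramified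
pro-`ℓ` extension of `k̄(x, y)`, `y^ℓ = g(a x^m)`, and for all extensions `N ⊇ M` of `F`; for instance
`F = k(x)` is allowed, for which `Gal(M/F)` is the geometrically pro-`ℓ` orbifold fundamental group of
`ℙ¹` with the index `ℓ` at the roots of `g(a x^m)`.  If `F` is finitely generated over `k` and `M/k̄F` is
unramified (for the curves `C` above, this is the condition on the ramification indices), then `M` is
the field of the geometrically pro-`ℓ` fundamental group of `C`; this is also proved.

Proof.  Let `s` be a section of `Gal(N/F) → G_k`.  As `s(σ)` fixes `x`, it maps `y` to an `ℓ`-th root of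
unity times `y`, so that `σ ↦ s(σ) y / y` is a continuous cocycle, and there are `δ ∈ k̄`, by Hilbert's
theorem 90, and `d = δ^ℓ ∈ k`, such that `y' = y / δ` is fixed by all `s(σ)`.  Hence `s` is also a section
for the field `F' = k(x, y')` of the curve `d y'^ℓ = g(a x^m)`, and all its values fix the field `F F'`,
which is contained in `M`.  By `MP_c385f6_ag.CoveringsOfTwistsByRotations` for `F F' / F'`, the image of
`s` is contained in the decomposition group of one `W` only, above `x = 0` or `x = ∞`, and the residue
field of `W ∩ F F'`, and a fortiori the one of `W ∩ F`, is `k`.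

For the second statement, `z ∈ Ω` is in `M` if and only if `σ^(ℓ^n)` fixes all conjugates of `z` over
`k̄(x)`, for some `n` and all `σ`, and `z` can be approximated by elements of `k̄(x, y)` at all valuation
rings over `k` (this is from the library `Pool.Agent.Y948.PS` of the starting results).  If `M/k̄F` is
unramified, then it is the same to approximate by elements of `k̄F`.
-/

set_option autoImplicit false

open Polynomial

namespace Pool.Agent.Results.MP_c385f6_ag.TwistedEllCoverings

open Pool.Agent.H59.SCT

/-- The leading coefficient of `g` is invertible, the reduction of `g(x^m)` is separable, and the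
degree of `g(x^m)` is at least 3. -/
def GoodPolynomial {A : Type} [CommRing A] [IsLocalRing A] (m : ℕ) (g : A[X]) : Prop :=
  IsUnit g.leadingCoeff ∧ ((expand A m g).map (IsLocalRing.residue A)).Separable ∧
    3 ≤ (expand A m g).natDegree

/-- The valuation of `a` is not divisible by `m`: `a = t ϖ^n` with `t` invertible in `A`, `ϖ` a
uniformiser and `n` not divisible by `m`. -/
def ValuationNotDivisible (A : Type) {k : Type} [CommRing A] [Field k] [Algebra A k] (m : ℕ) (a : k) :
    Prop :=
  ∃ (ϖ t : A) (n : ℤ), Irreducible ϖ ∧ IsUnit t ∧ ¬ (m : ℤ) ∣ n ∧
    a = algebraMap A k t * algebraMap A k ϖ ^ n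

section statement

variable {k Ω : Type} [Field k] [Field Ω] [Algebra k Ω] {F : IntermediateField k Ω}
  {N : IntermediateField F Ω}

/-- The valuation ring `W` is above `x = 0` or `x = ∞`. -/
def AboveZeroOrInfinity (x : F) (W : ValuationSubring N) : Prop :=
  algebraMap F N x ∈ W.nonunits ∨ algebraMap F N x⁻¹ ∈ W.nonunits

/-- The valuation ring `W` is above `x = 0`, `x = ∞` or a zero of `g(a x^m)`. -/
def AboveSpecial {A : Type} [CommRing A] [Algebra A k] (m : ℕ) (g : A[X]) (a : k) (x : F)
    (W : ValuationSubring N) : Prop :=
  algebraMap F N x ∈ W.nonunits ∨ algebraMap F N x⁻¹ ∈ W.nonunits ∨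
    algebraMap F N (aeval (algebraMap k F a * x ^ m) (g.map (algebraMap A k))) ∈ W.nonunits

end statement

/-- `g(a x^m)` is separable, of degree `m deg g` -/
lemma separable_twist {A k : Type} [CommRing A] [IsDomain A] [IsDiscreteValuationRing A]
    [Finite (IsLocalRing.ResidueField A)] [Field k] [CharZero k] [Algebra A k] [IsFractionRing A k]
    {m : ℕ} (hm : 0 < m) {g : A[X]} {a : k} (hg : GoodPolynomial m g) (ha : a ≠ 0) :
    ((g.map (algebraMap A k)).comp (C a * X ^ m)).Separable ∧
      ((g.map (algebraMap A k)).comp (C a * X ^ m)).natDegree = (expand A m g).natDegree := by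
  obtain ⟨hlc, hs, h3⟩ := hg
  have hinj := IsFractionRing.injective A k
  have hlce : IsUnit (expand A m g).leadingCoeff := by
    rw [leadingCoeff_expand hm]
    exact hlc
  let κ := AlgebraicClosure k
  obtain ⟨V, hVa, hVm⟩ := Pool.Agent.Y157.PS.exists_V A k κ
  have hsep : ((expand A m g).map (algebraMap A k)).Separable := by
    refine Pool.Agent.R925.L.key_sep (A := A) (k := k) (κ := κ) V (fun b => ?_) (fun b hb => ?_) _
      hlce hs
    · rw [IsScalarTower.algebraMap_apply A k κ]
      exact hVa b
    · rw [IsScalarTower.algebraMap_apply A k κ]
      exact hVm b hb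
  obtain ⟨ρ, hρ⟩ := IsAlgClosed.exists_pow_nat_eq (algebraMap k κ a) hm
  have hρ0 : ρ ≠ 0 := by
    rintro rfl
    rw [zero_pow hm.ne'] at hρ
    exact (_root_.map_ne_zero _).2 ha hρ.symm
  constructor
  · rw [← separable_map (algebraMap k κ)]
    have h1 : ((g.map (algebraMap A k)).comp (C a * X ^ m)).map (algebraMap k κ) =
        (((expand A m g).map (algebraMap A k)).map (algebraMap k κ)).comp (C ρ * X) := by
      rw [map_expand, map_expand, expand_eq_comp_X_pow, comp_assoc, Polynomial.map_comp]
      congr 1
      simp [mul_pow, ← C_pow, hρ]
    rw [h1]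
    have h2 : (((expand A m g).map (algebraMap A k)).map (algebraMap k κ)).Separable := hsep.map
    set E := ((expand A m g).map (algebraMap A k)).map (algebraMap k κ) with hE
    unfold Separable at h2 ⊢
    rw [derivative_comp]
    have h3 : derivative (C ρ * X) = C ρ := by simp
    rw [h3]
    have h4 : IsCoprime (E.comp (C ρ * X)) ((derivative E).comp (C ρ * X)) := by
      have := h2.map (compRingHom (C ρ * X))
      simpa using this
    have h5 : IsUnit (C ρ : κ[X]) := isUnit_C.2 (isUnit_iff_ne_zero.2 hρ0)
    exact (isCoprime_mul_unit_left_right h5 _ _).2 h4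
  · rw [natDegree_comp, natDegree_C_mul_X_pow _ _ ha, natDegree_map_eq_of_injective hinj,
      natDegree_expand]

/-- Let `A` be a complete discrete valuation ring with finite residue field and with field of
fractions `k` of characteristic zero, `ℓ` a prime number invertible in `A`, `m = ℓ^j` with `j ≥ 1`,
`g ∈ A[x]` a polynomial with invertible leading coefficient such that `g(x^m)` has separable reduction
and degree at least 3, and `a ∈ k` an element whose valuation is not divisible by `m`.  Let `Ω` be an
algebraic closure of `k(x)`, `y ∈ Ω` with `y^ℓ = g(a x^m)`, and `M = proEll ℓ k(x, y)` the maximal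
unramified pro-`ℓ` extension of `k̄(x, y)`.  Let `F` be a field with `k(x) ⊆ F ⊆ M`.

1. For all extensions `N ⊇ M` of `F` in `Ω`, every section `s` of `Gal(N/F) → G_k` induces on `M` the
section of exactly one place, and it is `k`-rational: there is a valuation ring `W` of `N` above `x = 0`
or `x = ∞` such that the residue field of `W ∩ F` is `k` and the image of `s` in `Gal(M/F)` is contained
in the decomposition group of `W ∩ M`; and `W ∩ M` is the only valuation ring with the last property
among those above `x = 0`, `x = ∞` or a zero of `g(a x^m)`.

2. If `F` is finitely generated over `k` and `M` is unramified over `k̄ F`, then `M` is the maximal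
unramified pro-`ℓ` extension of `k̄ F`, so that `Gal(M/F)` is the geometrically pro-`ℓ` fundamental group
of the smooth projective curve with function field `F`.

3. Two sections of `Gal(N/F) → G_k`, `N ⊇ proEll ℓ F`, with images in the decomposition group of the same
`W` on `proEll ℓ F`, where `W` contains `k` and the residue field of `W ∩ F` is `k`, agree on
`proEll ℓ F`. -/
theorem result (A k : Type) [CommRing A] [IsDomain A] [IsDiscreteValuationRing A]
    [IsAdicComplete (IsLocalRing.maximalIdeal A) A] [Finite (IsLocalRing.ResidueField A)]
    [Field k] [CharZero k] [Algebra A k] [IsFractionRing A k] (ℓ : ℕ) [Fact ℓ.Prime] (j : ℕ)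
    (hj : 1 ≤ j) (g : A[X]) (a : k) (hℓ : IsUnit (ℓ : A)) (hg : GoodPolynomial (ℓ ^ j) g)
    (ha : ValuationNotDivisible A (ℓ ^ j) a)
    (Ω : Type) [Field Ω] [Algebra k Ω] [IsAlgClosed Ω] (F : IntermediateField k Ω) (x : F) (y : Ω)
    (hx : Transcendental k (x : Ω))
    (halg : Algebra.IsAlgebraic (IntermediateField.adjoin k {(x : Ω)}) Ω)
    (hy : y ^ ℓ = aeval (algebraMap k Ω a * (x : Ω) ^ (ℓ ^ j)) (g.map (algebraMap A k)))
    (hF : F ≤ proEll ℓ (IntermediateField.adjoin k {(x : Ω), y})) :
    (∀ N : IntermediateField F Ω, (∀ z ∈ proEll ℓ (IntermediateField.adjoin k {(x : Ω), y}), z ∈ N) →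
      ∀ s : Splitting F N,
        FromOneRationalPlace (proEll ℓ (IntermediateField.adjoin k {(x : Ω), y})) s
          (AboveZeroOrInfinity x) (AboveSpecial (ℓ ^ j) g a x)) ∧
    (F.FG → UnramifiedOver (geom F) (proEll ℓ (IntermediateField.adjoin k {(x : Ω), y})) →
      proEll ℓ F = proEll ℓ (IntermediateField.adjoin k {(x : Ω), y})) ∧
    (∀ N : IntermediateField F Ω, (∀ z ∈ proEll ℓ F, z ∈ N) → ∀ (s s' : Splitting F N)
      (W : ValuationSubring N), RationalOver W → InDecomposition (proEll ℓ F) s W →
      InDecomposition (proEll ℓ F) s' W → ∀ σ, ∀ z : N, (z : Ω) ∈ proEll ℓ F →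
      s.toHom σ z = s'.toHom σ z) := by
  refine ⟨fun N hN s => rotA A k ℓ j hj g a hℓ hg ha Ω F x y hx halg hy hF N hN s,
    fun hFG hun => ?_, fun N hN s s' W hW h h' σ z hz => ?_⟩
  · have hp := (Fact.out : ℓ.Prime).pos
    have ha0 : a ≠ 0 := by
      obtain ⟨ϖ, t, n, hϖ, ht, hn, ha'⟩ := ha
      have hinj : Function.Injective (algebraMap A k) := IsFractionRing.injective A k
      rw [ha']
      exact mul_ne_zero ((map_ne_zero_iff _ hinj).2 ht.ne_zero)
        (zpow_ne_zero _ ((map_ne_zero_iff _ hinj).2 hϖ.ne_zero))
    obtain ⟨h1, h2⟩ := separable_twist (k := k) (pow_pos hp j) hg ha0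
    refine proEll_mid hx halg ((g.map (algebraMap A k)).comp (C a * X ^ (ℓ ^ j))) h1 ?_ ?_ ?_ F x.2
      hFG hF hun
    · rw [h2, natDegree_expand]
      exact Dvd.dvd.mul_left (dvd_pow_self ℓ (by omega)) _
    · rw [h2]
      exact lt_of_lt_of_le (by norm_num) hg.2.2
    · rw [hy, aeval_comp]
      simp
  · have := alg_over halg F x.2
    exact unique ℓ F N hN s s' W hW h h' σ z hz

end Pool.Agent.Results.MP_c385f6_ag.TwistedEllCoverings
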